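import Mathlib

/-!
# Models of ZF: formulas, satisfaction, axioms, and a calculus of definable predicates
-/

set_option autoImplicit false
set_option linter.unusedSectionVars false
set_option linter.style.haveILetI false

universe u

namespace Pool.Agent.H82.ZF

/-- Formulas of the first-order language of set theory, with de Bruijn indices:
`all φ` quantifies variable `0` of `φ`, and variable `n + 1` of `φ` is variable `n` outside. -/
inductive Fml : Type
  | mem : ℕ → ℕ → Fml
  | eq : ℕ → ℕ → Fml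
  | neg : Fml → Fml
  | and : Fml → Fml → Fml
  | all : Fml → Fml

variable {M : Type u}

/-- The assignment giving `x` to variable `0` and `e n` to variable `n + 1`. -/
def cons (x : M) (e : ℕ → M) : ℕ → M
  | 0 => x
  | n + 1 => e n

/-- Tarski satisfaction in the structure `(M, ∈)`. -/
def Fml.Sat [Membership M M] : Fml → (ℕ → M) → Prop
  | .mem i j, e => e i ∈ e j
  | .eq i j, e => e i = e j
  | .neg φ, e => ¬ φ.Sat e
  | .and φ ψ, e => φ.Sat e ∧ ψ.Sat e
  | .all φ, e => ∀ x : M, φ.Sat (cons x e)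

/-- `(M, ∈)` is a model of Zermelo–Fraenkel set theory (without choice): extensionality,
foundation, pairing, union, power set, infinity, and the schemas of separation and replacement for
all first-order formulas with parameters. -/
structure IsZF (M : Type u) [Membership M M] : Prop where
  ext : ∀ x y : M, (∀ z : M, z ∈ x ↔ z ∈ y) → x = y
  found : ∀ x : M, (∃ y : M, y ∈ x) → ∃ y : M, y ∈ x ∧ ∀ z : M, z ∈ y → ¬ z ∈ x
  pairing : ∀ x y : M, ∃ p : M, ∀ z : M, z ∈ p ↔ z = x ∨ z = y
  union : ∀ x : M, ∃ u : M, ∀ z : M, z ∈ u ↔ ∃ y : M, y ∈ x ∧ z ∈ y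
  power : ∀ x : M, ∃ p : M, ∀ z : M, z ∈ p ↔ ∀ t : M, t ∈ z → t ∈ x
  infinity : ∃ w : M, (∃ o : M, (∀ z : M, ¬ z ∈ o) ∧ o ∈ w) ∧
    ∀ x : M, x ∈ w → ∃ y : M, (∀ z : M, z ∈ y ↔ z ∈ x ∨ z = x) ∧ y ∈ w
  separation : ∀ (φ : Fml) (e : ℕ → M) (a : M),
    ∃ y : M, ∀ x : M, x ∈ y ↔ x ∈ a ∧ φ.Sat (cons x e)
  replacement : ∀ (φ : Fml) (e : ℕ → M) (a : M),
    (∀ x : M, x ∈ a → ∀ y z : M, φ.Sat (cons x (cons y e)) → φ.Sat (cons x (cons z e)) → y = z) →
    ∃ b : M, ∀ y : M, y ∈ b ↔ ∃ x : M, x ∈ a ∧ φ.Sat (cons x (cons y e))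

/-! ## Renaming -/

/-- Renaming of variables under one binder. -/
def lift (f : ℕ → ℕ) : ℕ → ℕ
  | 0 => 0
  | n + 1 => f n + 1

/-- Renaming of the variables of a formula. -/
def Fml.ren : Fml → (ℕ → ℕ) → Fml
  | .mem i j, f => .mem (f i) (f j)
  | .eq i j, f => .eq (f i) (f j)
  | .neg φ, f => .neg (φ.ren f)
  | .and φ ψ, f => .and (φ.ren f) (ψ.ren f)
  | .all φ, f => .all (φ.ren (lift f))

theorem cons_lift (x : M) (e : ℕ → M) (f : ℕ → ℕ) :
    (fun n => cons x e (lift f n)) = cons x (fun n => e (f n)) := by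
  funext n; cases n <;> rfl

theorem Fml.sat_ren [Membership M M] (φ : Fml) : ∀ (f : ℕ → ℕ) (e : ℕ → M),
    (φ.ren f).Sat e ↔ φ.Sat (fun n => e (f n)) := by
  induction φ with
  | mem i j => intro f e; rfl
  | eq i j => intro f e; rfl
  | neg φ ih => intro f e; simp only [Fml.ren, Fml.Sat, ih]
  | and φ ψ ih1 ih2 => intro f e; simp only [Fml.ren, Fml.Sat, ih1, ih2]
  | all φ ih =>
    intro f e
    simp only [Fml.ren, Fml.Sat, ih]
    refine forall_congr' fun x => ?_
    rw [cons_lift]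

/-! ## Definable predicates with parameters -/

/-- interleaving of two assignments -/
def mix (e p : ℕ → M) : ℕ → M := fun n => if n % 2 = 0 then e (n / 2) else p (n / 2)

theorem mix_even (e p : ℕ → M) (n : ℕ) : mix e p (2 * n) = e n := by
  unfold mix
  rw [if_pos (by omega)]; congr 1; omega

theorem mix_odd (e p : ℕ → M) (n : ℕ) : mix e p (2 * n + 1) = p n := by
  unfold mix
  rw [if_neg (by omega)]; congr 1; omega

theorem mix_ext {e p : ℕ → M} {g : ℕ → M} (h1 : ∀ n, g (2 * n) = e n)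
    (h2 : ∀ n, g (2 * n + 1) = p n) : g = mix e p := by
  funext n
  rcases Nat.even_or_odd' n with ⟨k, rfl | rfl⟩
  · rw [h1, mix_even]
  · rw [h2, mix_odd]

variable [Membership M M]

/-- `P` is a predicate of assignments given by a first-order formula with parameters from `M`. -/
class Dfn (P : (ℕ → M) → Prop) : Prop where
  out : ∃ (φ : Fml) (p : ℕ → M), ∀ e : ℕ → M, P e ↔ φ.Sat (mix e p)

/-- `t` is a definable (with parameters) function of assignments. -/
class Fn (t : (ℕ → M) → M) : Prop where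
  out : Dfn (fun e : ℕ → M => e 0 = t (fun n => e (n + 1)))

theorem Dfn.congr {P Q : (ℕ → M) → Prop} (h : Dfn P) (hPQ : ∀ e, Q e ↔ P e) : Dfn Q := by
  obtain ⟨φ, p, hφ⟩ := h.out
  exact ⟨φ, p, fun e => (hPQ e).trans (hφ e)⟩

theorem Dfn.ren {P : (ℕ → M) → Prop} (h : Dfn P) (f : ℕ → ℕ) :
    Dfn (fun e => P (fun n => e (f n))) := by
  obtain ⟨φ, p, hφ⟩ := h.out
  refine ⟨φ.ren (fun n => if n % 2 = 0 then 2 * f (n / 2) else n), p, fun e => ?_⟩
  rw [Fml.sat_ren, hφ]
  have : (fun n => mix e p (if n % 2 = 0 then 2 * f (n / 2) else n))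
      = mix (fun n => e (f n)) p := by
    apply mix_ext
    · intro n
      simp only [show 2 * n % 2 = 0 by omega, show 2 * n / 2 = n by omega, if_true, mix_even]
    · intro n
      simp only [show ¬ (2 * n + 1) % 2 = 0 by omega, if_false, mix_odd]
  rw [this]

instance Dfn.not {P : (ℕ → M) → Prop} [h : Dfn P] : Dfn (fun e => ¬ P e) := by
  obtain ⟨φ, p, hφ⟩ := h.out
  exact ⟨.neg φ, p, fun e => by simp only [Fml.Sat, hφ]⟩

instance Dfn.and {P Q : (ℕ → M) → Prop} [h : Dfn P] [k : Dfn Q] : Dfn (fun e => P e ∧ Q e) := by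
  obtain ⟨φ, p, hφ⟩ := h.out
  obtain ⟨ψ, q, hψ⟩ := k.out
  refine ⟨.and (φ.ren (fun n => if n % 2 = 0 then n else 2 * (2 * (n / 2)) + 1))
    (ψ.ren (fun n => if n % 2 = 0 then n else 2 * (2 * (n / 2) + 1) + 1)), mix p q, fun e => ?_⟩
  simp only [Fml.Sat, Fml.sat_ren]
  have h1 : (fun n => mix e (mix p q) (if n % 2 = 0 then n else 2 * (2 * (n / 2)) + 1))
      = mix e p := by
    apply mix_ext
    · intro n; simp only [show 2 * n % 2 = 0 by omega, if_true, mix_even]
    · intro n
      simp only [show ¬ (2 * n + 1) % 2 = 0 by omega, if_false, mix_odd,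
        show (2 * n + 1) / 2 = n by omega, mix_even]
  have h2 : (fun n => mix e (mix p q) (if n % 2 = 0 then n else 2 * (2 * (n / 2) + 1) + 1))
      = mix e q := by
    apply mix_ext
    · intro n; simp only [show 2 * n % 2 = 0 by omega, if_true, mix_even]
    · intro n
      simp only [show ¬ (2 * n + 1) % 2 = 0 by omega, if_false, mix_odd,
        show (2 * n + 1) / 2 = n by omega]
  rw [h1, h2, hφ, hψ]

instance Dfn.or {P Q : (ℕ → M) → Prop} [Dfn P] [Dfn Q] : Dfn (fun e => P e ∨ Q e) :=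
  Dfn.congr (P := fun e => ¬ (¬ P e ∧ ¬ Q e)) inferInstance (fun e => by tauto)

instance Dfn.imp {P Q : (ℕ → M) → Prop} [Dfn P] [Dfn Q] : Dfn (fun e => P e → Q e) :=
  Dfn.congr (P := fun e => ¬ (P e ∧ ¬ Q e)) inferInstance (fun e => by tauto)

instance Dfn.iff {P Q : (ℕ → M) → Prop} [Dfn P] [Dfn Q] : Dfn (fun e => P e ↔ Q e) :=
  Dfn.congr (P := fun e => (P e → Q e) ∧ (Q e → P e)) inferInstance (fun e => by tauto)

/-- how the variables are shifted when a binder is added -/
theorem cons_mix (x : M) (e p : ℕ → M) :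
    (fun n => cons x (mix e p) (if n % 2 = 0 then (if n = 0 then 0 else n - 1) else n + 1))
      = mix (cons x e) p := by
  apply mix_ext
  · intro n
    cases n with
    | zero => simp [cons]
    | succ k =>
      have h1 : 2 * (k + 1) % 2 = 0 := by omega
      have h2 : ¬ 2 * (k + 1) = 0 := by omega
      simp only [h1, if_true, h2, if_false]
      have h3 : 2 * (k + 1) - 1 = 2 * k + 1 := by omega
      rw [h3]
      change mix e p (2 * k) = e k
      exact mix_even e p k
  · intro n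
    have h1 : ¬ (2 * n + 1) % 2 = 0 := by omega
    simp only [h1, if_false]
    change mix e p (2 * n + 1) = p n
    exact mix_odd e p n

instance Dfn.all {P : M → (ℕ → M) → Prop} [h : Dfn (fun e => P (e 0) (fun n => e (n + 1)))] :
    Dfn (fun e => ∀ x, P x e) := by
  obtain ⟨φ, p, hφ⟩ := h.out
  refine ⟨.all (φ.ren (fun n => if n % 2 = 0 then (if n = 0 then 0 else n - 1) else n + 1)), p,
    fun e => ?_⟩
  simp only [Fml.Sat, Fml.sat_ren]
  refine forall_congr' fun x => ?_
  rw [cons_mix]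
  exact hφ (cons x e)

instance Dfn.ex {P : M → (ℕ → M) → Prop} [h : Dfn (fun e => P (e 0) (fun n => e (n + 1)))] :
    Dfn (fun e => ∃ x, P x e) :=
  Dfn.congr (P := fun e => ¬ ∀ x, ¬ P x e) inferInstance (fun e => by simp)

variable [Nonempty M]

instance Fn.var (i : ℕ) : Fn (fun e : ℕ → M => e i) :=
  ⟨⟨.eq 0 (2 * (i + 1)), fun _ => Classical.arbitrary M, fun e => by
      have h0 := mix_even e (fun _ => Classical.arbitrary M) 0
      simp only [Fml.Sat]
      rw [mix_even, ← h0]⟩⟩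

instance Fn.const (a : M) : Fn (fun _ : ℕ → M => a) :=
  ⟨⟨.eq 0 1, fun _ => a, fun e => by
      have h0 := mix_even e (fun _ => a) 0
      have h1 := mix_odd e (fun _ => a) 0
      simp only [Fml.Sat]
      rw [← h0]
      simp only [Nat.mul_zero, Nat.zero_add] at h1 ⊢
      rw [h1]⟩⟩

theorem dfn_mem01 : Dfn (fun e : ℕ → M => e 0 ∈ e 1) :=
  ⟨.mem 0 2, fun _ => Classical.arbitrary M, fun e => by
      have h0 := mix_even e (fun _ => Classical.arbitrary M) 0
      have h1 := mix_even e (fun _ => Classical.arbitrary M) 1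
      simp only [Fml.Sat]
      simp only [Nat.mul_zero, Nat.mul_one] at h0 h1
      rw [h0, h1]⟩

theorem dfn_eq01 : Dfn (fun e : ℕ → M => e 0 = e 1) :=
  ⟨.eq 0 2, fun _ => Classical.arbitrary M, fun e => by
      have h0 := mix_even e (fun _ => Classical.arbitrary M) 0
      have h1 := mix_even e (fun _ => Classical.arbitrary M) 1
      simp only [Fml.Sat]
      simp only [Nat.mul_zero, Nat.mul_one] at h0 h1
      rw [h0, h1]⟩

/-- substitution of a definable function into a definable relation, general form -/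
theorem Dfn.subst {P : M → (ℕ → M) → Prop} (h : Dfn (fun e => P (e 0) (fun n => e (n + 1))))
    {t : (ℕ → M) → M} (ht : Fn t) : Dfn (fun e => P (t e) e) := by
  have h1 := ht.out
  have h2 : Dfn (fun e : ℕ → M => e 0 = t (fun n => e (n + 1)) ∧ P (e 0) (fun n => e (n + 1))) :=
    inferInstance
  have h3 : Dfn (fun e : ℕ → M => ∃ x, x = t e ∧ P x e) := Dfn.ex (P := fun x e => x = t e ∧ P x e)
  exact h3.congr (fun e => by simp)

theorem Dfn.sub1 {P : M → Prop} (h : Dfn (fun e => P (e 0))) {a : (ℕ → M) → M} [ha : Fn a] :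
    Dfn (fun e => P (a e)) :=
  Dfn.subst (P := fun x _ => P x) h ha

theorem Fn.ren {t : (ℕ → M) → M} (h : Fn t) (f : ℕ → ℕ) : Fn (fun e => t (fun n => e (f n))) := by
  refine ⟨?_⟩
  exact (h.out.ren (lift f)).congr (fun e => Iff.rfl)

theorem Dfn.sub2 {P : M → M → Prop} (h : Dfn (fun e => P (e 0) (e 1))) {a b : (ℕ → M) → M}
    [ha : Fn a] [hb : Fn b] : Dfn (fun e => P (a e) (b e)) := by
  have h1 : Dfn (fun e : ℕ → M => P (e 0) (b (fun n => e (n + 1)))) := by
    have hr : Dfn (fun e : ℕ → M => P (e 1) (e 0)) :=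
      (h.ren (fun n => if n = 0 then 1 else if n = 1 then 0 else n)).congr (fun e => by simp)
    exact Dfn.subst (P := fun x e => P (e 0) x) hr (hb.ren (fun n => n + 1))
  exact Dfn.subst (P := fun x e => P x (b e)) h1 ha

theorem Dfn.sub3 {P : M → M → M → Prop} (h : Dfn (fun e => P (e 0) (e 1) (e 2)))
    {a b c : (ℕ → M) → M} [ha : Fn a] [hb : Fn b] [hc : Fn c] :
    Dfn (fun e => P (a e) (b e) (c e)) := by
  have h1 : Dfn (fun e : ℕ → M => P (e 0) (b (fun n => e (n + 1))) (c (fun n => e (n + 1)))) := by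
    have hr : Dfn (fun e : ℕ → M => P (e 1) (e 0) (c (fun n => e (n + 2)))) := by
      have hq : Dfn (fun e : ℕ → M => P (e 2) (e 1) (e 0)) :=
        (h.ren (fun n => if n = 0 then 2 else if n = 1 then 1 else if n = 2 then 0 else n)).congr
          (fun e => by simp)
      exact Dfn.subst (P := fun x e => P (e 1) (e 0) x) hq (hc.ren (fun n => n + 2))
    exact Dfn.subst (P := fun x e => P (e 0) x (c (fun n => e (n + 1)))) hr
      (hb.ren (fun n => n + 1))
  exact Dfn.subst (P := fun x e => P x (b e) (c e)) h1 ha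

theorem Dfn.sub4 {P : M → M → M → M → Prop} (h : Dfn (fun e => P (e 0) (e 1) (e 2) (e 3)))
    {a b c d : (ℕ → M) → M} [ha : Fn a] [hb : Fn b] [hc : Fn c] [hd : Fn d] :
    Dfn (fun e => P (a e) (b e) (c e) (d e)) := by
  have hq : Dfn (fun e : ℕ → M => P (e 3) (e 2) (e 1) (e 0)) :=
    (h.ren (fun n => if n = 0 then 3 else if n = 1 then 2 else if n = 2 then 1 else
      if n = 3 then 0 else n)).congr (fun e => by simp)
  have h3 : Dfn (fun e : ℕ → M => P (e 2) (e 1) (e 0) (d (fun n => e (n + 3)))) :=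
    Dfn.subst (P := fun x e => P (e 2) (e 1) (e 0) x) hq (hd.ren (fun n => n + 3))
  have h2 : Dfn (fun e : ℕ → M => P (e 1) (e 0) (c (fun n => e (n + 2)))
      (d (fun n => e (n + 2)))) :=
    Dfn.subst (P := fun x e => P (e 1) (e 0) x (d (fun n => e (n + 2)))) h3
      (hc.ren (fun n => n + 2))
  have h1 : Dfn (fun e : ℕ → M => P (e 0) (b (fun n => e (n + 1))) (c (fun n => e (n + 1)))
      (d (fun n => e (n + 1)))) :=
    Dfn.subst (P := fun x e => P (e 0) x (c (fun n => e (n + 1))) (d (fun n => e (n + 1)))) h2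
      (hb.ren (fun n => n + 1))
  exact Dfn.subst (P := fun x e => P x (b e) (c e) (d e)) h1 ha

instance Dfn.mem {a b : (ℕ → M) → M} [Fn a] [Fn b] : Dfn (fun e => a e ∈ b e) :=
  Dfn.sub2 (P := fun x y => x ∈ y) dfn_mem01

instance Dfn.eq {a b : (ℕ → M) → M} [Fn a] [Fn b] : Dfn (fun e => a e = b e) :=
  Dfn.sub2 (P := fun x y => x = y) dfn_eq01

/-- a function of one argument whose graph is definable is a definable function -/
theorem Fn.sub1 {g : M → M} (h : Fn (fun e => g (e 0))) {a : (ℕ → M) → M} [ha : Fn a] :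
    Fn (fun e => g (a e)) := by
  refine ⟨?_⟩
  haveI := ha.ren (fun n => n + 1)
  exact Dfn.sub2 (P := fun z x => z = g x) h.out (a := fun e => e 0)
    (b := fun e => a (fun n => e (n + 1)))

theorem Fn.sub2 {g : M → M → M} (h : Fn (fun e => g (e 0) (e 1))) {a b : (ℕ → M) → M}
    [ha : Fn a] [hb : Fn b] : Fn (fun e => g (a e) (b e)) := by
  refine ⟨?_⟩
  haveI := ha.ren (fun n => n + 1)
  haveI := hb.ren (fun n => n + 1)
  exact Dfn.sub3 (P := fun z x y => z = g x y) h.out (a := fun e => e 0)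
    (b := fun e => a (fun n => e (n + 1))) (c := fun e => b (fun n => e (n + 1)))

theorem Fn.sub3 {g : M → M → M → M} (h : Fn (fun e => g (e 0) (e 1) (e 2)))
    {a b c : (ℕ → M) → M} [ha : Fn a] [hb : Fn b] [hc : Fn c] :
    Fn (fun e => g (a e) (b e) (c e)) := by
  refine ⟨?_⟩
  haveI := ha.ren (fun n => n + 1)
  haveI := hb.ren (fun n => n + 1)
  haveI := hc.ren (fun n => n + 1)
  exact Dfn.sub4 (P := fun z x y w => z = g x y w) h.out (a := fun e => e 0)
    (b := fun e => a (fun n => e (n + 1))) (c := fun e => b (fun n => e (n + 1)))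
    (d := fun e => c (fun n => e (n + 1)))

open Classical in
instance Fn.ite {P : (ℕ → M) → Prop} {a b : (ℕ → M) → M} [hP : Dfn P] [ha : Fn a] [hb : Fn b] :
    Fn (fun e => if P e then a e else b e) := by
  refine ⟨?_⟩
  have h1 := ha.out
  have h2 := hb.out
  have h3 : Dfn (fun e : ℕ → M => P (fun n => e (n + 1))) := hP.ren (fun n => n + 1)
  have h4 : Dfn (fun e : ℕ → M => (P (fun n => e (n + 1)) ∧ e 0 = a (fun n => e (n + 1))) ∨
    (¬ P (fun n => e (n + 1)) ∧ e 0 = b (fun n => e (n + 1)))) := inferInstance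
  refine h4.congr fun e => ?_
  by_cases h : P (fun n => e (n + 1)) <;> simp [h]

theorem Dfn.slice {P : M → (ℕ → M) → Prop} (h : Dfn (fun e => P (e 0) (fun n => e (n + 1))))
    (e : ℕ → M) : ∃ (φ : Fml) (e' : ℕ → M), ∀ x, P x e ↔ φ.Sat (cons x e') := by
  obtain ⟨φ, p, hφ⟩ := h.out
  refine ⟨φ.ren (fun n => if n % 2 = 0 then (if n = 0 then 0 else n - 1) else n + 1), mix e p,
    fun x => ?_⟩
  rw [Fml.sat_ren, cons_mix]
  exact hφ (cons x e)

end Pool.Agent.H82.ZF
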