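import Pool.Agent.H82.ZF.Filt

/-!
# The one-step extension of an additive filter

`K s G x y` says that `y ⊆ ω` is a limit of the shifts of `x` along some ultrafilter above `G`; it is
a closed set of reals, so it has a canonical (leftmost) element `zz s G x`.
-/

set_option autoImplicit false
set_option linter.unusedSectionVars false
set_option linter.style.haveILetI false
set_option synthInstance.maxSize 100000

universe u

namespace Pool.Agent.H82.ZF

variable {M : Type u} [Membership M M] [hM : ZFM M]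

/-- the shift `x - m` agrees with `y` below `k` -/
def Pt (s x y k m : M) : Prop := ∀ i : M, i ∈ k → (add s i m ∈ x ↔ i ∈ y)

/-- `y` is a limit of shifts of `x` along an ultrafilter above `G` -/
def K (s G x y : M) : Prop :=
  Sub y om ∧ ∀ k : M, k ∈ (om : M) → ∀ g : M, g ∈ G → ∃ m : M, m ∈ g ∧ Pt s x y k m

/-- the limit of the shifts of `x` along `V` -/
noncomputable def act (s V x : M) : M := sep om (fun i => sep pos (fun m => add s i m ∈ x) ∈ V)

theorem mem_act {s V x i : M} :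
    i ∈ act s V x ↔ i ∈ (om : M) ∧ sep pos (fun m => add s i m ∈ x) ∈ V := by
  unfold act; exact mem_sep

/-- `y` and `y'` agree below `n`, or `y` is smaller than `y'` at the first difference below `n` -/
def Lex (y y' n : M) : Prop :=
  (∀ i : M, i ∈ n → (i ∈ y ↔ i ∈ y')) ∨
    ∃ i : M, i ∈ n ∧ (∀ j : M, j ∈ i → (j ∈ y ↔ j ∈ y')) ∧ ¬ i ∈ y ∧ i ∈ y'

instance {a b c : (ℕ → M) → M} [Fn a] [Fn b] [Fn c] : Dfn (fun e => Lex (a e) (b e) (c e)) :=
  Dfn.sub3 (P := fun x y z => Lex x y z) (by unfold Lex; infer_instance)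

instance dfn_Pt (s : M) {a b c d : (ℕ → M) → M} [Fn a] [Fn b] [Fn c] [Fn d] :
    Dfn (fun e => Pt s (a e) (b e) (c e) (d e)) :=
  Dfn.sub4 (P := fun x y z w => Pt s x y z w) (by unfold Pt; infer_instance)

instance dfn_K (s : M) {a b c : (ℕ → M) → M} [Fn a] [Fn b] [Fn c] :
    Dfn (fun e => K s (a e) (b e) (c e)) :=
  Dfn.sub3 (P := fun x y z => K s x y z) (by unfold K; infer_instance)

/-- the leftmost element of the closed set `{y : K s G x y}` -/
noncomputable def zz (s G x : M) : M :=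
  sep om (fun n => ∀ y : M, K s G x y → (∀ y' : M, K s G x y' → Lex y y' n) → n ∈ y)

theorem mem_zz {s G x n : M} : n ∈ zz s G x ↔ n ∈ (om : M) ∧
    ∀ y : M, K s G x y → (∀ y' : M, K s G x y' → Lex y y' n) → n ∈ y := by
  unfold zz; exact mem_sep

/-- the filter generated by `G` and the sets `{m : Pt s x y k m}` -/
noncomputable def genP (s G x y : M) : M :=
  sep (pow pos) (fun A => ∃ g : M, g ∈ G ∧ ∃ k : M, k ∈ (om : M) ∧
    ∀ m : M, m ∈ g → Pt s x y k m → m ∈ A)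

theorem mem_genP {s G x y A : M} : A ∈ genP s G x y ↔ A ∈ (pow pos : M) ∧ ∃ g : M, g ∈ G ∧
    ∃ k : M, k ∈ (om : M) ∧ ∀ m : M, m ∈ g → Pt s x y k m → m ∈ A := by
  unfold genP; exact mem_sep

/-- the condition generating `genR` -/
def RQ (s G B z k m : M) : Prop := ∃ y : M, K s G z y ∧ Pt s B y k m

/-- the filter generated by `G` and the sets `{m : ∃ y, K s G z y ∧ Pt s B y k m}` -/
noncomputable def genR (s G B z : M) : M :=
  sep (pow pos) (fun A => ∃ g : M, g ∈ G ∧ ∃ k : M, k ∈ (om : M) ∧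
    ∀ m : M, m ∈ g → RQ s G B z k m → m ∈ A)

instance dfn_RQ (s B : M) {a b c d : (ℕ → M) → M} [Fn a] [Fn b] [Fn c] [Fn d] :
    Dfn (fun e => RQ s (a e) B (b e) (c e) (d e)) :=
  Dfn.sub4 (P := fun x y z w => RQ s x B y z w) (by unfold RQ; infer_instance)

theorem mem_genR {s G B z A : M} : A ∈ genR s G B z ↔ A ∈ (pow pos : M) ∧ ∃ g : M, g ∈ G ∧
    ∃ k : M, k ∈ (om : M) ∧ ∀ m : M, m ∈ g → RQ s G B z k m → m ∈ A := by
  unfold genR; exact mem_sep

theorem Pt.mono {s x y k l m : M} (h : Sub k l) (hp : Pt s x y l m) : Pt s x y k m :=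
  fun i hi => hp i (h i hi)

theorem RQ.mono {s G B z k l m : M} (h : Sub k l) (hp : RQ s G B z l m) : RQ s G B z k m := by
  obtain ⟨y, hy, hp⟩ := hp
  exact ⟨y, hy, hp.mono h⟩

/-! ### The leftmost element -/

theorem exists_level {s G x : M} (hne : ∃ y : M, K s G x y) {n : M} (hn : n ∈ (om : M)) :
    ∃ y : M, K s G x y ∧ (∀ y' : M, K s G x y' → Lex y y' n) ∧
      ∀ i : M, i ∈ n → (i ∈ zz s G x ↔ i ∈ y) := by
  refine om_ind (P := fun n => ∃ y : M, K s G x y ∧ (∀ y' : M, K s G x y' → Lex y y' n) ∧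
      ∀ i : M, i ∈ n → (i ∈ zz s G x ↔ i ∈ y)) ?_ ?_ hn
  · obtain ⟨y, hy⟩ := hne
    exact ⟨y, hy, fun y' _ => Or.inl fun i hi => absurd hi not_mem_emp,
      fun i hi => absurd hi not_mem_emp⟩
  · rintro n hn ⟨y, hy, hmin, hz⟩
    -- two minimal elements agree below n
    have agree : ∀ y1 : M, K s G x y1 → (∀ y' : M, K s G x y' → Lex y1 y' n) →
        ∀ i : M, i ∈ n → (i ∈ y1 ↔ i ∈ y) := by
      intro y1 hy1 hmin1
      rcases hmin1 y hy with h | ⟨i, hi, hij, hi1, hi2⟩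
      · exact h
      · rcases hmin y1 hy1 with h | ⟨i', hi', hij', hi1', hi2'⟩
        · exact fun j hj => (h j hj).symm
        · exfalso
          have hio := mem_om_of_mem hn i hi
          have hio' := mem_om_of_mem hn i' hi'
          rcases om_total hio i' hio' with hs | hs
          · rcases sub_lem hio' i hio hs with rfl | hlt
            · exact hi1' hi2
            · exact hi1 ((hij' i hlt).mp hi2)
          · rcases sub_lem hio i' hio' hs with rfl | hlt
            · exact hi1' hi2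
            · exact hi1' ((hij i' hlt).mp hi2')
    by_cases hex : ∃ y1 : M, K s G x y1 ∧ (∀ y' : M, K s G x y' → Lex y1 y' n) ∧ ¬ n ∈ y1
    · obtain ⟨y1, hy1, hmin1, hn1⟩ := hex
      have hnz : ¬ n ∈ zz s G x := by
        intro h
        exact hn1 ((mem_zz.mp h).2 y1 hy1 hmin1)
      refine ⟨y1, hy1, ?_, ?_⟩
      · intro y' hy'
        rcases hmin1 y' hy' with h | ⟨i, hi, hij, hi1, hi2⟩
        · by_cases hny : n ∈ y'
          · exact Or.inr ⟨n, mem_suc.mpr (Or.inr rfl), h, hn1, hny⟩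
          · left
            intro i hi
            rcases mem_suc.mp hi with h1 | rfl
            · exact h i h1
            · exact ⟨fun h => absurd h hn1, fun h => absurd h hny⟩
        · exact Or.inr ⟨i, mem_suc.mpr (Or.inl hi), hij, hi1, hi2⟩
      · intro i hi
        rcases mem_suc.mp hi with h1 | rfl
        · exact (hz i h1).trans (agree y1 hy1 hmin1 i h1).symm
        · exact ⟨fun h => absurd h hnz, fun h => absurd h hn1⟩
    · push Not at hex
      have hnz : n ∈ zz s G x := mem_zz.mpr ⟨hn, fun y1 hy1 hmin1 => hex y1 hy1 hmin1⟩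
      have hny : n ∈ y := hex y hy hmin
      refine ⟨y, hy, ?_, ?_⟩
      · intro y' hy'
        rcases hmin y' hy' with h | ⟨i, hi, hij, hi1, hi2⟩
        · left
          have hn' : n ∈ y' := by
            apply hex y' hy'
            intro y2 hy2
            rcases hmin y2 hy2 with h2 | ⟨i, hi, hij, hi1, hi2⟩
            · exact Or.inl fun i hi => (h i hi).symm.trans (h2 i hi)
            · refine Or.inr ⟨i, hi, fun j hj => ?_, ?_, hi2⟩
              · have hjn : j ∈ n := om_trans hn i hi j hj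
                exact (h j hjn).symm.trans (hij j hj)
              · intro h3; exact hi1 ((h i hi).mpr h3)
          intro i hi
          rcases mem_suc.mp hi with h1 | rfl
          · exact h i h1
          · exact ⟨fun _ => hn', fun _ => hny⟩
        · exact Or.inr ⟨i, mem_suc.mpr (Or.inl hi), hij, hi1, hi2⟩
      · intro i hi
        rcases mem_suc.mp hi with h1 | rfl
        · exact hz i h1
        · exact ⟨fun _ => hny, fun _ => hnz⟩

theorem K_zz {s G x : M} (hne : ∃ y : M, K s G x y) : K s G x (zz s G x) := by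
  refine ⟨fun i hi => (mem_zz.mp hi).1, fun k hk g hg => ?_⟩
  obtain ⟨y, hy, _, hz⟩ := exists_level hne hk
  obtain ⟨m, hm, hp⟩ := hy.2 k hk g hg
  exact ⟨m, hm, fun i hi => (hp i hi).trans (hz i hi).symm⟩

/-! ### Limits along ultrafilters -/

section

variable {s : M}

/-- `{m : i + m ∈ x ⟺ i ∈ act V x} ∈ V` -/
theorem act_spec {V : M} (hV : Ult V) (x : M) {i : M} (hi : i ∈ (om : M)) :
    sep pos (fun m => (add s i m ∈ x ↔ i ∈ act s V x)) ∈ V := by
  by_cases h : i ∈ act s V x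
  · have h1 := (mem_act.mp h).2
    refine hV.1.2.2.2.1 _ h1 _ (fun m hm => (mem_sep.mp hm).1) ?_
    intro m hm
    rw [mem_sep] at hm ⊢
    exact ⟨hm.1, fun _ => h, fun _ => hm.2⟩
  · have h1 : ¬ sep pos (fun m => add s i m ∈ x) ∈ V := fun h2 => h (mem_act.mpr ⟨hi, h2⟩)
    rcases hV.dich (A := sep pos (fun m => add s i m ∈ x)) (fun m hm => (mem_sep.mp hm).1) with
      h2 | h2
    · exact absurd h2 h1
    · refine hV.1.2.2.2.1 _ h2 _ (fun m hm => (mem_sep.mp hm).1) ?_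
      intro m hm
      rw [mem_cmp] at hm
      rw [mem_sep]
      refine ⟨hm.1, fun h3 => ?_, fun h3 => absurd h3 h⟩
      exact absurd (mem_sep.mpr ⟨hm.1, h3⟩) hm.2

theorem act_Pt {V : M} (hV : Ult V) (x : M) {k : M} (hk : k ∈ (om : M)) :
    sep pos (fun m => Pt s x (act s V x) k m) ∈ V :=
  fin_inter hV.1 (Q := fun i m => (add s i m ∈ x ↔ i ∈ act s V x)) inferInstance
    (fun i hi => act_spec hV x hi) hk

variable (hs : IsAddition om s)

include hs

theorem act_Pt_shift {V : M} (hV : Ult V) (x : M) {k n : M} (hk : k ∈ (om : M))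
    (hn : n ∈ (om : M)) :
    sep pos (fun m => ∀ i : M, i ∈ k → (add s (add s i n) m ∈ x ↔ add s i n ∈ act s V x)) ∈ V :=
  fin_inter hV.1 (Q := fun i m => (add s (add s i n) m ∈ x ↔ add s i n ∈ act s V x)) inferInstance
    (fun i hi => act_spec hV x (add_mem hs hi hn)) hk

omit hs in
theorem K_act {G V : M} (hV : Ult V) (hGV : Sub G V) (x : M) : K s G x (act s V x) := by
  refine ⟨fun i hi => (mem_act.mp hi).1, fun k hk g hg => ?_⟩
  obtain ⟨m, hm, hm'⟩ := hV.1.inhab2 (hGV g hg) (act_Pt (s := s) hV x hk)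
  exact ⟨m, hm, (mem_sep.mp hm').2⟩

omit hs in
theorem genP_spec {G x y : M} (hG : Filt G) (hy : K s G x y) :
    Filt (genP s G x y) ∧ Sub G (genP s G x y) ∧ ∀ A : M, Sub A pos → ∀ k : M, k ∈ (om : M) →
      (∀ m : M, m ∈ (pos : M) → Pt s x y k m → m ∈ A) → A ∈ genP s G x y :=
  filt_gen hG (fun k m => Pt s x y k m) (fun _ _ _ _ h _ hp => hp.mono h)
    (fun g hg k hk => hy.2 k hk g hg) (fun A => mem_genP)

omit hs in
/-- an ultrafilter containing the pattern sets of `(x, y)` has `act V x = y` -/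
theorem act_eq {V x y : M} (hV : Ult V) (hy : Sub y om)
    (h : ∀ k : M, k ∈ (om : M) → sep pos (fun m => Pt s x y k m) ∈ V) : act s V x = y := by
  apply ext'
  intro i
  constructor
  · intro hi
    obtain ⟨hio, hi⟩ := mem_act.mp hi
    obtain ⟨m, hm, hm'⟩ := hV.1.inhab2 hi (h (suc i) (suc_mem_om hio))
    rw [mem_sep] at hm hm'
    exact (hm'.2 i (mem_suc.mpr (Or.inr rfl))).mp hm.2
  · intro hi
    have hio := hy i hi
    refine mem_act.mpr ⟨hio, ?_⟩
    refine hV.1.2.2.2.1 _ (h (suc i) (suc_mem_om hio)) _ (fun m hm => (mem_sep.mp hm).1) ?_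
    intro m hm
    rw [mem_sep] at hm ⊢
    exact ⟨hm.1, (hm.2 i (mem_suc.mpr (Or.inr rfl))).mpr hi⟩

omit hs in
theorem act_eq_of_genP {G V x y : M} (hG : Filt G) (hy : K s G x y) (hV : Ult V)
    (h : Sub (genP s G x y) V) : act s V x = y :=
  act_eq hV hy.1 fun k hk => h _ ((genP_spec hG hy).2.2 _ (fun m hm => (mem_sep.mp hm).1) k hk
    fun m hm hp => mem_sep.mpr ⟨hm, hp⟩)

end

/-! ### The extension steps -/

section

variable {s : M} (hs : IsAddition om s) {F : M}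
  (hU : ∀ H : M, Filt H → Sub F H → ∃ V : M, Ult V ∧ Sub H V)

include hU

theorem ult_of_K {G x y : M} (hG : Filt G) (hFG : Sub F G) (hy : K s G x y) :
    ∃ V : M, Ult V ∧ Sub G V ∧ act s V x = y := by
  obtain ⟨h1, h2, h3⟩ := genP_spec hG hy
  obtain ⟨V, hV, hV'⟩ := hU _ h1 (hFG.trans h2)
  exact ⟨V, hV, h2.trans hV', act_eq_of_genP hG hy hV hV'⟩

theorem ult_avoid {G A : M} (hG : Filt G) (hFG : Sub F G) (hA : Sub A pos) (hAG : ¬ A ∈ G) :
    ∃ V : M, Ult V ∧ Sub G V ∧ ¬ A ∈ V := by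
  have h : ∀ g : M, g ∈ G → ∃ m : M, m ∈ g ∧ m ∈ cmp A := by
    intro g hg
    by_contra h
    push Not at h
    apply hAG
    refine hG.2.2.2.1 g hg A hA ?_
    intro m hm
    by_contra hmA
    exact h m hm (mem_cmp.mpr ⟨hG.1 g hg m hm, hmA⟩)
  obtain ⟨h1, h2, h3⟩ := filt_adj hG h
  obtain ⟨V, hV, hV'⟩ := hU _ h1 (hFG.trans h2)
  refine ⟨V, hV, h2.trans hV', fun hAV => ?_⟩
  exact hV.1.not_both hAV (hV' _ (h3 fun m hm => (mem_cmp.mp hm).1))

theorem exists_K {G : M} (hG : Filt G) (hFG : Sub F G) (x : M) : ∃ y : M, K s G x y := by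
  obtain ⟨V, hV, hV'⟩ := hU _ hG hFG
  exact ⟨_, K_act hV hV' x⟩

include hs

theorem add_swap {i m n : M} (hi : i ∈ (om : M)) (hm : m ∈ (om : M)) (hn : n ∈ (om : M)) :
    add s i (add s m n) = add s (add s i n) m := by
  rw [add_comm' hs hm hn, add_assoc' hs hi hn hm]

theorem genR_spec {G B z : M} (hG : Addi s G) (hFG : Sub F G) (hz : K s G B z) :
    Filt (genR s G B z) ∧ Sub G (genR s G B z) ∧ ∀ A : M, Sub A pos → ∀ k : M, k ∈ (om : M) →
      (∀ m : M, m ∈ (pos : M) → RQ s G B z k m → m ∈ A) → A ∈ genR s G B z := by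
  refine filt_gen hG.1 (fun k m => RQ s G B z k m) (fun _ _ _ _ h _ hp => hp.mono h) ?_
    (fun A => mem_genR)
  intro g hg k hk
  obtain ⟨V, hV, hGV, hact⟩ := ult_of_K hU hG.1 hFG hz
  have hy : K s G z (act s V z) := K_act hV hGV z
  have h1 : lim s g V ∈ V := hGV _ (hG.2 V hV hGV g hg)
  obtain ⟨n, hn1, hn2⟩ := hV.1.inhab2 h1 (act_Pt (s := s) hV z hk)
  rw [mem_lim] at hn1
  rw [mem_sep] at hn2
  obtain ⟨m, hm1, hm2⟩ := hV.1.inhab2 hn1.2 (act_Pt_shift hs hV B hk (pos_om hn1.1))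
  rw [mem_shift] at hm1
  rw [mem_sep, hact] at hm2
  refine ⟨add s m n, hm1.2, act s V z, hy, fun i hi => ?_⟩
  have hio := mem_om_of_mem hk i hi
  rw [add_swap hs hU hio (pos_om hm1.1) (pos_om hn1.1), hm2.2 i hi, hn2.2 i hi]

/-- an ultrafilter above `genR` maps `B` into the closed set of `z` -/
theorem K_of_genR {G B z V : M} (hG : Addi s G) (hFG : Sub F G) (hz : K s G B z) (hV : Ult V)
    (hRV : Sub (genR s G B z) V) : K s G z (act s V B) := by
  obtain ⟨_, _, h3⟩ := genR_spec hs hU hG hFG hz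
  refine ⟨fun i hi => (mem_act.mp hi).1, fun k hk g hg => ?_⟩
  have h4 : sep pos (fun m => RQ s G B z k m) ∈ V :=
    hRV _ (h3 _ (fun m hm => (mem_sep.mp hm).1) k hk fun m hm hq => mem_sep.mpr ⟨hm, hq⟩)
  obtain ⟨m, hm1, hm2⟩ := hV.1.inhab2 h4 (act_Pt (s := s) hV B hk)
  rw [mem_sep] at hm1 hm2
  obtain ⟨_, y', hy', hp⟩ := hm1
  obtain ⟨m', hm', hp'⟩ := hy'.2 k hk g hg
  exact ⟨m', hm', fun i hi => (hp' i hi).trans ((hp i hi).symm.trans (hm2.2 i hi))⟩

theorem addi_genR {G B z : M} (hG : Addi s G) (hFG : Sub F G) (hz : K s G B z) :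
    Addi s (genR s G B z) := by
  obtain ⟨h1, h2, h3⟩ := genR_spec hs hU hG hFG hz
  refine ⟨h1, fun V hV hRV A hA => ?_⟩
  have hy : K s G z (act s V B) := K_of_genR hs hU hG hFG hz hV hRV
  obtain ⟨V1, hV1, hGV1, hact1⟩ := ult_of_K hU hG.1 hFG hy
  obtain ⟨hA1, g, hg, k, hk, hAg⟩ := mem_genR.mp hA
  have hC : sep pos (fun m => RQ s G z z k m) ∈ G := by
    by_contra hC
    obtain ⟨U, hU1, hGU, hCU⟩ := ult_avoid hU hG.1 hFG
      (A := sep pos (fun m => RQ s G z z k m)) (fun m hm => (mem_sep.mp hm).1) hC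
    apply hCU
    refine hU1.1.2.2.2.1 _ (act_Pt (s := s) hU1 z hk) _ (fun m hm => (mem_sep.mp hm).1) ?_
    intro m hm
    rw [mem_sep] at hm ⊢
    exact ⟨hm.1, _, K_act hU1 hGU z, hm.2⟩
  have hD1 := hG.2 V1 hV1 hGV1 _ hC
  have hD2 := hG.2 V hV (h2.trans hRV) g hg
  apply h2
  refine hG.1.up2 hD1 hD2 (fun m hm => (mem_lim.mp hm).1) ?_
  intro n hn1 hn2
  rw [mem_lim] at hn1 hn2 ⊢
  refine ⟨hn1.1, ?_⟩
  have hno := pos_om hn1.1
  obtain ⟨m, hm1, hm2⟩ := hV1.1.inhab2 hn1.2 (act_Pt_shift hs hV1 z hk hno)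
  rw [mem_shift, mem_sep] at hm1
  rw [mem_sep, hact1] at hm2
  obtain ⟨hmp, _, y'', hy'', hp⟩ := hm1
  have hstar : ∀ i : M, i ∈ k → (i ∈ y'' ↔ add s i n ∈ act s V B) := by
    intro i hi
    have hio := mem_om_of_mem hk i hi
    rw [← hp i hi, add_swap hs hU hio (pos_om hmp) hno, hm2.2 i hi]
  refine hV.1.up2 hn2.2 (act_Pt_shift hs hV B hk hno) (fun m hm => (mem_shift.mp hm).1) ?_
  intro m hm1 hm2
  rw [mem_shift] at hm1 ⊢
  rw [mem_sep] at hm2
  refine ⟨hm1.1, hAg _ hm1.2 ⟨y'', hy'', fun i hi => ?_⟩⟩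
  have hio := mem_om_of_mem hk i hi
  rw [add_swap hs hU hio (pos_om hm1.1) hno, hm2.2 i hi, hstar i hi]

/-- common computation for the filters `genP` -/
theorem lim_genP {G B z V A : M} (hV : Ult V) (hA : A ∈ genP s G B z) (hact : act s V B = z)
    (hG : Addi s G) (hGV : Sub G V) :
    ∃ g : M, g ∈ G ∧ ∃ k : M, k ∈ (om : M) ∧ ∀ n : M, n ∈ g → n ∈ (pos : M) → Pt s z z k n →
      n ∈ lim s A V := by
  obtain ⟨hA1, g, hg, k, hk, hAg⟩ := mem_genP.mp hA
  refine ⟨_, hG.2 V hV hGV g hg, k, hk, fun n hn hnp hp => ?_⟩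
  rw [mem_lim] at hn ⊢
  refine ⟨hnp, ?_⟩
  have hno := pos_om hnp
  refine hV.1.up2 hn.2 (act_Pt_shift hs hV B hk hno) (fun m hm => (mem_shift.mp hm).1) ?_
  intro m hm1 hm2
  rw [mem_shift] at hm1 ⊢
  rw [mem_sep, hact] at hm2
  refine ⟨hm1.1, hAg _ hm1.2 fun i hi => ?_⟩
  have hio := mem_om_of_mem hk i hi
  rw [add_swap hs hU hio (pos_om hm1.1) hno, hm2.2 i hi, hp i hi]

theorem addi_genP {G z : M} (hG : Addi s G) (hzz : K s G z z) : Addi s (genP s G z z) := by
  obtain ⟨h1, h2, h3⟩ := genP_spec hG.1 hzz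
  refine ⟨h1, fun V hV hPV A hA => ?_⟩
  have hact := act_eq_of_genP hG.1 hzz hV hPV
  obtain ⟨g, hg, k, hk, h⟩ := lim_genP hs hU hV hA hact hG (h2.trans hPV)
  exact mem_genP.mpr ⟨mem_pow.mpr fun m hm => (mem_lim.mp hm).1, g, hg, k, hk,
    fun m hm hp => h m hm (hG.1.1 g hg m hm) hp⟩

theorem addi_genP' {G B z : M} (hG : Addi s G) (hz : K s G B z) (hzz : K s G z z)
    (h2 : genP s G z z = G) : Addi s (genP s G B z) := by
  obtain ⟨h1, h2', h3⟩ := genP_spec hG.1 hz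
  refine ⟨h1, fun V hV hPV A hA => ?_⟩
  have hact := act_eq_of_genP hG.1 hz hV hPV
  obtain ⟨g, hg, k, hk, h⟩ := lim_genP hs hU hV hA hact hG (h2'.trans hPV)
  apply h2'
  have hE : sep pos (fun m => Pt s z z k m) ∈ G := by
    rw [← h2]
    exact (genP_spec hG.1 hzz).2.2 _ (fun m hm => (mem_sep.mp hm).1) k hk
      fun m hm hp => mem_sep.mpr ⟨hm, hp⟩
  refine hG.1.up2 hg hE (fun m hm => (mem_lim.mp hm).1) ?_
  intro n hn1 hn2
  rw [mem_sep] at hn2
  exact h n hn1 hn2.1 hn2.2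

omit hU in
theorem decides {G B z : M} (hG : Filt G) (hB : Sub B pos) (hz : K s G B z) :
    B ∈ genP s G B z ∨ cmp B ∈ genP s G B z := by
  obtain ⟨_, _, h3⟩ := genP_spec hG hz
  have h0 : (emp : M) ∈ suc (emp : M) := mem_suc.mpr (Or.inr rfl)
  by_cases h : (emp : M) ∈ z
  · left
    refine h3 B hB (suc emp) (suc_mem_om emp_mem_om) fun m hm hp => ?_
    have := (hp emp h0).mpr h
    rwa [emp_add hs (pos_om hm)] at this
  · right
    refine h3 _ (fun m hm => (mem_cmp.mp hm).1) (suc emp) (suc_mem_om emp_mem_om)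
      fun m hm hp => mem_cmp.mpr ⟨hm, fun hmB => h ?_⟩
    apply (hp emp h0).mp
    rwa [emp_add hs (pos_om hm)]

end

end Pool.Agent.H82.ZF
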