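import Pool.Agent.H82.ZF.NatM

/-!
# Filters on the positive integers inside a model of ZF
-/

set_option autoImplicit false
set_option linter.unusedSectionVars false
set_option linter.style.haveILetI false
set_option synthInstance.maxSize 100000

universe u

namespace Pool.Agent.H82.ZF

variable {M : Type u} [Membership M M] [hM : ZFM M]

/-- the set of positive integers of the model -/
noncomputable def pos : M := sep om (fun x => ¬ x = emp)

theorem mem_pos {x : M} : x ∈ (pos : M) ↔ x ∈ (om : M) ∧ ¬ x = emp := by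
  unfold pos; exact mem_sep

theorem pos_om {x : M} (h : x ∈ (pos : M)) : x ∈ (om : M) := (mem_pos.mp h).1

theorem isPositive_iff {N : M} : IsPositive om N ↔ N = pos := by
  unfold IsPositive
  simp only [isEmp_iff]
  constructor
  · intro h; exact ext' fun x => (h x).trans mem_pos.symm
  · rintro rfl; intro x; exact mem_pos

/-- complement in the positive integers -/
noncomputable def cmp (A : M) : M := sep pos (fun x => ¬ x ∈ A)

theorem mem_cmp {A x : M} : x ∈ cmp A ↔ x ∈ (pos : M) ∧ ¬ x ∈ A := by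
  unfold cmp; exact mem_sep

/-- intersection -/
noncomputable def cap (A C : M) : M := sep A (fun x => x ∈ C)

theorem mem_cap {A C x : M} : x ∈ cap A C ↔ x ∈ A ∧ x ∈ C := by
  unfold cap; exact mem_sep

instance {a b : (ℕ → M) → M} [Fn a] [Fn b] : Fn (fun e => cap (a e) (b e)) :=
  Fn.sub2 (g := fun x y => cap x y) (by unfold cap; infer_instance)

/-- filter on the positive integers -/
def Filt (F : M) : Prop :=
  (∀ A : M, A ∈ F → Sub A pos) ∧ (¬ emp ∈ F) ∧ pos ∈ F ∧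
    (∀ A : M, A ∈ F → ∀ C : M, Sub C pos → Sub A C → C ∈ F) ∧
    (∀ A : M, A ∈ F → ∀ C : M, C ∈ F → cap A C ∈ F)

instance {a : (ℕ → M) → M} [Fn a] : Dfn (fun e => Filt (a e)) :=
  Dfn.sub1 (P := fun x => Filt x) (by unfold Filt; infer_instance)

theorem isFilter_iff {F : M} : IsFilter pos F ↔ Filt F := by
  constructor
  · intro h
    refine ⟨h.sub, ?_, h.top, fun A hA C hC hAC => h.up A C hA hAC hC, fun A hA C hC =>
      h.inter A C _ hA hC fun z => mem_cap⟩
    intro he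
    exact h.nonempty _ he (isEmp_iff.mpr rfl)
  · intro h
    refine ⟨h.1, ?_, h.2.2.1, fun A C hA hAC hC => h.2.2.2.1 A hA C hC hAC, ?_⟩
    · intro A hA he
      rw [isEmp_iff.mp he] at hA
      exact h.2.1 hA
    · intro A C D hA hC hD
      have : D = cap A C := ext' fun z => (hD z).trans mem_cap.symm
      rw [this]; exact h.2.2.2.2 A hA C hC

/-- ultrafilter on the positive integers -/
def Ult (V : M) : Prop := Filt V ∧ ∀ W : M, Filt W → Sub V W → W = V

instance {a : (ℕ → M) → M} [Fn a] : Dfn (fun e => Ult (a e)) :=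
  Dfn.sub1 (P := fun x => Ult x) (by unfold Ult; infer_instance)

theorem isUltrafilter_iff {F : M} : IsUltrafilter pos F ↔ Ult F := by
  constructor
  · intro h
    exact ⟨isFilter_iff.mp h.filter, fun W hW hs => h.maximal W (isFilter_iff.mpr hW) hs⟩
  · intro h
    exact ⟨isFilter_iff.mpr h.1, fun W hW hs => h.2 W (isFilter_iff.mp hW) hs⟩

theorem Filt.inhab {F A : M} (hF : Filt F) (hA : A ∈ F) : ∃ m : M, m ∈ A := by
  by_contra h
  push Not at h
  rw [eq_emp h] at hA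
  exact hF.2.1 hA

/-- two members of a filter have a common element -/
theorem Filt.inhab2 {F A C : M} (hF : Filt F) (hA : A ∈ F) (hC : C ∈ F) :
    ∃ m : M, m ∈ A ∧ m ∈ C := by
  obtain ⟨m, hm⟩ := hF.inhab (hF.2.2.2.2 A hA C hC)
  exact ⟨m, mem_cap.mp hm⟩

theorem Filt.up2 {F A C D : M} (hF : Filt F) (hA : A ∈ F) (hC : C ∈ F) (hD : Sub D pos)
    (h : ∀ m : M, m ∈ A → m ∈ C → m ∈ D) : D ∈ F :=
  hF.2.2.2.1 _ (hF.2.2.2.2 A hA C hC) D hD (fun m hm => h m (mem_cap.mp hm).1 (mem_cap.mp hm).2)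

/-- the filter generated by a filter and a decreasing family of conditions -/
theorem filt_gen {F H : M} (hF : Filt F) (Q : M → M → Prop)
    (hmono : ∀ k l : M, k ∈ (om : M) → l ∈ (om : M) → Sub k l → ∀ m : M, Q l m → Q k m)
    (hpos : ∀ g : M, g ∈ F → ∀ k : M, k ∈ (om : M) → ∃ m : M, m ∈ g ∧ Q k m)
    (hH : ∀ A : M, A ∈ H ↔ A ∈ (pow pos : M) ∧ ∃ g : M, g ∈ F ∧ ∃ k : M, k ∈ (om : M) ∧
      ∀ m : M, m ∈ g → Q k m → m ∈ A) :
    Filt H ∧ Sub F H ∧ ∀ A : M, Sub A pos → ∀ k : M, k ∈ (om : M) →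
      (∀ m : M, m ∈ (pos : M) → Q k m → m ∈ A) → A ∈ H := by
  refine ⟨⟨?_, ?_, ?_, ?_, ?_⟩, ?_, ?_⟩
  · intro A hA
    exact mem_pow.mp ((hH A).mp hA).1
  · intro he
    obtain ⟨_, g, hg, k, hk, h⟩ := (hH _).mp he
    obtain ⟨m, hm, hq⟩ := hpos g hg k hk
    exact not_mem_emp (h m hm hq)
  · exact (hH _).mpr ⟨mem_pow.mpr (Sub.refl _), pos, hF.2.2.1, emp, emp_mem_om, fun m hm _ => hm⟩
  · intro A hA C hC hAC
    obtain ⟨_, g, hg, k, hk, h⟩ := (hH _).mp hA
    exact (hH _).mpr ⟨mem_pow.mpr hC, g, hg, k, hk, fun m hm hq => hAC m (h m hm hq)⟩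
  · intro A hA C hC
    obtain ⟨hA1, g, hg, k, hk, h⟩ := (hH _).mp hA
    obtain ⟨_, g', hg', k', hk', h'⟩ := (hH _).mp hC
    refine (hH _).mpr ⟨mem_pow.mpr fun m hm => mem_pow.mp hA1 m (mem_cap.mp hm).1, cap g g',
      hF.2.2.2.2 g hg g' hg', ?_⟩
    rcases om_total hk k' hk' with hkk | hkk
    · refine ⟨k', hk', fun m hm hq => mem_cap.mpr ⟨?_, ?_⟩⟩
      · exact h m (mem_cap.mp hm).1 (hmono k k' hk hk' hkk m hq)
      · exact h' m (mem_cap.mp hm).2 hq
    · refine ⟨k, hk, fun m hm hq => mem_cap.mpr ⟨?_, ?_⟩⟩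
      · exact h m (mem_cap.mp hm).1 hq
      · exact h' m (mem_cap.mp hm).2 (hmono k' k hk' hk hkk m hq)
  · intro A hA
    exact (hH _).mpr ⟨mem_pow.mpr (hF.1 A hA), A, hA, emp, emp_mem_om, fun m hm _ => hm⟩
  · intro A hA k hk h
    exact (hH _).mpr ⟨mem_pow.mpr hA, pos, hF.2.2.1, k, hk, h⟩

/-- adding one set -/
noncomputable def adj (F C : M) : M :=
  sep (pow pos) (fun A => ∃ g : M, g ∈ F ∧ ∃ k : M, k ∈ (om : M) ∧ ∀ m : M, m ∈ g → m ∈ C → m ∈ A)

theorem mem_adj {F C A : M} : A ∈ adj F C ↔ A ∈ (pow pos : M) ∧ ∃ g : M, g ∈ F ∧ ∃ k : M,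
    k ∈ (om : M) ∧ ∀ m : M, m ∈ g → m ∈ C → m ∈ A := by
  unfold adj; exact mem_sep

theorem filt_adj {F C : M} (hF : Filt F) (h : ∀ g : M, g ∈ F → ∃ m : M, m ∈ g ∧ m ∈ C) :
    Filt (adj F C) ∧ Sub F (adj F C) ∧ (Sub C pos → C ∈ adj F C) := by
  obtain ⟨h1, h2, h3⟩ := filt_gen (H := adj F C) hF (fun _ m => m ∈ C) (fun _ _ _ _ _ _ h => h)
    (fun g hg _ _ => h g hg) (fun A => mem_adj)
  exact ⟨h1, h2, fun hC => h3 C hC emp emp_mem_om fun m _ hm => hm⟩

theorem Ult.dich {V A : M} (hV : Ult V) (hA : Sub A pos) : A ∈ V ∨ cmp A ∈ V := by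
  by_cases h : ∀ g : M, g ∈ V → ∃ m : M, m ∈ g ∧ m ∈ A
  · left
    obtain ⟨h1, h2, h3⟩ := filt_adj hV.1 h
    rw [← hV.2 _ h1 h2]
    exact h3 hA
  · right
    push Not at h
    obtain ⟨g, hg, h⟩ := h
    exact hV.1.2.2.2.1 g hg _ (fun m hm => (mem_cmp.mp hm).1)
      (fun m hm => mem_cmp.mpr ⟨hV.1.1 g hg m hm, h m hm⟩)

theorem Filt.not_both {V A : M} (hV : Filt V) (h1 : A ∈ V) (h2 : cmp A ∈ V) : False := by
  obtain ⟨m, hm, hm'⟩ := hV.inhab2 h1 h2
  exact (mem_cmp.mp hm').2 hm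

/-- finite intersections, indexed by the elements of a natural number -/
theorem fin_inter {V : M} (hV : Filt V) {Q : M → M → Prop}
    (hQ : Dfn (fun e : ℕ → M => Q (e 0) (e 1)))
    (h : ∀ i : M, i ∈ (om : M) → sep pos (fun m => Q i m) ∈ V) {k : M} (hk : k ∈ (om : M)) :
    sep pos (fun m => ∀ i : M, i ∈ k → Q i m) ∈ V := by
  haveI hQ' : ∀ {a b : (ℕ → M) → M} [Fn a] [Fn b], Dfn (fun e => Q (a e) (b e)) := Dfn.sub2 hQ
  refine om_ind (P := fun k => sep pos (fun m => ∀ i : M, i ∈ k → Q i m) ∈ V) ?_ ?_ hk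
  · have : sep pos (fun m => ∀ i : M, i ∈ (emp : M) → Q i m) = (pos : M) := by
      apply ext'; intro z; rw [mem_sep]
      exact ⟨fun h => h.1, fun h => ⟨h, fun i hi => absurd hi not_mem_emp⟩⟩
    rw [this]; exact hV.2.2.1
  · intro n hn ih
    refine hV.up2 ih (h n hn) (fun m hm => (mem_sep.mp hm).1) ?_
    intro m hm1 hm2
    rw [mem_sep] at hm1 hm2 ⊢
    refine ⟨hm1.1, fun i hi => ?_⟩
    rcases mem_suc.mp hi with h1 | rfl
    · exact hm1.2 i h1
    · exact hm2.2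

/-! ### Shifts and additive filters -/

/-- `A - n` -/
noncomputable def shift (s A n : M) : M := sep pos (fun m => add s m n ∈ A)

theorem mem_shift {s A n m : M} : m ∈ shift s A n ↔ m ∈ (pos : M) ∧ add s m n ∈ A := by
  unfold shift; exact mem_sep

instance {a b c : (ℕ → M) → M} [Fn a] [Fn b] [Fn c] : Fn (fun e => shift (a e) (b e) (c e)) :=
  Fn.sub3 (g := fun x y z => shift x y z) (by unfold shift; infer_instance)

/-- `{n : A - n ∈ V}` -/
noncomputable def lim (s A V : M) : M := sep pos (fun n => shift s A n ∈ V)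

theorem mem_lim {s A V n : M} : n ∈ lim s A V ↔ n ∈ (pos : M) ∧ shift s A n ∈ V := by
  unfold lim; exact mem_sep

instance {a b c : (ℕ → M) → M} [Fn a] [Fn b] [Fn c] : Fn (fun e => lim (a e) (b e) (c e)) :=
  Fn.sub3 (g := fun x y z => lim x y z) (by unfold lim; infer_instance)

/-- additive filter -/
def Addi (s F : M) : Prop :=
  Filt F ∧ ∀ V : M, Ult V → Sub F V → ∀ A : M, A ∈ F → lim s A V ∈ F

instance {a b : (ℕ → M) → M} [Fn a] [Fn b] : Dfn (fun e => Addi (a e) (b e)) :=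
  Dfn.sub2 (P := fun x y => Addi x y) (by unfold Addi; infer_instance)

section

variable {s : M} (hs : IsAddition om s)

include hs

theorem isShift_iff {A n D : M} (hn : n ∈ (pos : M)) :
    IsShift pos s A n D ↔ D = shift s A n := by
  have key : ∀ m : M, (m ∈ (pos : M) ∧ ∃ k : M, Tri s m n k ∧ k ∈ A) ↔ m ∈ shift s A n := by
    intro m
    rw [mem_shift]
    constructor
    · rintro ⟨hm, k, hk, hkA⟩
      refine ⟨hm, ?_⟩
      rw [tri_add hs hk]; exact hkA
    · rintro ⟨hm, h⟩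
      exact ⟨hm, _, (tri_iff_add hs (pos_om hm) (pos_om hn)).mpr rfl, h⟩
  constructor
  · intro h; exact ext' fun m => (h m).trans (key m)
  · rintro rfl; intro m; exact (key m).symm

theorem inPseudoSum_iff {F G A : M} : InPseudoSum pos s F G A ↔ lim s A G ∈ F := by
  have key : ∀ n : M, (n ∈ (pos : M) ∧ ∃ D : M, IsShift pos s A n D ∧ D ∈ G) ↔ n ∈ lim s A G := by
    intro n
    rw [mem_lim]
    constructor
    · rintro ⟨hn, D, hD, hDG⟩
      rw [(isShift_iff hs hn)] at hD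
      subst hD; exact ⟨hn, hDG⟩
    · rintro ⟨hn, h⟩
      exact ⟨hn, _, (isShift_iff hs hn).mpr rfl, h⟩
  constructor
  · rintro ⟨C, hC, h⟩
    have : C = lim s A G := ext' fun n => (hC n).trans (key n)
    rw [← this]; exact h
  · intro h
    exact ⟨_, fun n => (key n).symm, h⟩

theorem isAdditive_iff {F : M} : IsAdditive pos s F ↔ Addi s F := by
  constructor
  · intro h
    exact ⟨isFilter_iff.mp h.filter, fun V hV hFV A hA =>
      (inPseudoSum_iff hs).mp (h.additive V (isUltrafilter_iff.mpr hV) hFV A hA)⟩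
  · intro h
    exact ⟨isFilter_iff.mpr h.1, fun V hV hFV A hA =>
      (inPseudoSum_iff hs).mpr (h.2 V (isUltrafilter_iff.mp hV) hFV A hA)⟩

end

end Pool.Agent.H82.ZF
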