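import Pool.Agent.H82.ZF.Core

/-!
# The Bourbaki–Witt theorem inside a model of ZF, and the theorem
-/

set_option autoImplicit false
set_option linter.unusedSectionVars false
set_option linter.style.haveILetI false
set_option linter.unusedVariables false
set_option synthInstance.maxSize 100000

universe u

namespace Pool.Agent.H82.ZF

variable {M : Type u} [Membership M M] [hM : ZFM M]

/-- chains -/
def Chain (C : M) : Prop := ∀ G : M, G ∈ C → ∀ H : M, H ∈ C → Sub G H ∨ Sub H G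

instance {a : (ℕ → M) → M} [Fn a] : Dfn (fun e => Chain (a e)) :=
  Dfn.sub1 (P := fun x => Chain x) (by unfold Chain; infer_instance)

/-- towers for the Bourbaki–Witt argument -/
def Tow (X : M) (f : M → M) (F T : M) : Prop :=
  Sub T X ∧ F ∈ T ∧ (∀ G : M, G ∈ T → f G ∈ T) ∧
    ∀ C : M, Sub C T → (∃ G : M, G ∈ C) → Chain C → sUn C ∈ T

/-- definable unary functions -/
class FnU (f : M → M) : Prop where
  out : Fn (fun e : ℕ → M => f (e 0))

instance fn_FnU {f : M → M} [h : FnU f] {a : (ℕ → M) → M} [Fn a] : Fn (fun e => f (a e)) :=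
  haveI := h.out
  Fn.sub1 (g := fun x => f x) h.out

section BW

variable {X F : M} {f : M → M} [hf : FnU f]

instance dfn_Tow {a : (ℕ → M) → M} [Fn a] : Dfn (fun e => Tow X f F (a e)) :=
  Dfn.sub1 (P := fun x => Tow X f F x) (by unfold Tow; infer_instance)

variable (X F f) in
/-- the least tower -/
noncomputable def T0 : M := sep X (fun G => ∀ T : M, Tow X f F T → G ∈ T)

theorem mem_T0 {G : M} : G ∈ T0 X F f ↔ G ∈ X ∧ ∀ T : M, Tow X f F T → G ∈ T := by
  unfold T0; exact mem_sep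

variable (hF : F ∈ X) (hmin : ∀ G : M, G ∈ X → Sub F G) (hfX : ∀ G : M, G ∈ X → f G ∈ X)
  (hinf : ∀ G : M, G ∈ X → Sub G (f G))
  (hch : ∀ C : M, Sub C X → (∃ G : M, G ∈ C) → Chain C → sUn C ∈ X)

include hF hfX hch in
theorem tow_T0 : Tow X f F (T0 X F f) := by
  refine ⟨fun G hG => (mem_T0.mp hG).1, mem_T0.mpr ⟨hF, fun T hT => hT.2.1⟩, ?_, ?_⟩
  · intro G hG
    rw [mem_T0] at hG ⊢
    exact ⟨hfX G hG.1, fun T hT => hT.2.2.1 G (hG.2 T hT)⟩
  · intro C hC hne hcC
    rw [mem_T0]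
    refine ⟨hch C (fun G hG => (mem_T0.mp (hC G hG)).1) hne hcC, fun T hT => ?_⟩
    exact hT.2.2.2 C (fun G hG => (mem_T0.mp (hC G hG)).2 T hT) hne hcC

/-- extreme points of the least tower -/
def Ext (X F : M) (f : M → M) (c : M) : Prop :=
  ∀ y : M, y ∈ T0 X F f → Sub y c → y ≠ c → Sub (f y) c

include hF hmin hfX hinf hch in
theorem ext_lem {c : M} (hc : c ∈ T0 X F f) (he : Ext X F f c) {x : M} (hx : x ∈ T0 X F f) :
    Sub x c ∨ Sub (f c) x := by
  have hT := tow_T0 hF hfX hch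
  have h : Tow X f F (sep (T0 X F f) (fun x => Sub x c ∨ Sub (f c) x)) := by
    refine ⟨?_, ?_, ?_, ?_⟩
    · intro G hG; exact hT.1 G (mem_sep.mp hG).1
    · exact mem_sep.mpr ⟨hT.2.1, Or.inl (hmin c (hT.1 c hc))⟩
    · intro G hG
      rw [mem_sep] at hG ⊢
      refine ⟨hT.2.2.1 G hG.1, ?_⟩
      rcases hG.2 with h | h
      · by_cases hGc : G = c
        · right; rw [hGc]; exact Sub.refl _
        · left; exact he G hG.1 h hGc
      · right; exact h.trans (hinf G (hT.1 G hG.1))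
    · intro C hC hne hcC
      rw [mem_sep]
      refine ⟨hT.2.2.2 C (fun G hG => (mem_sep.mp (hC G hG)).1) hne hcC, ?_⟩
      by_cases hall : ∀ G : M, G ∈ C → Sub G c
      · left
        intro z hz
        obtain ⟨G, hG, hzG⟩ := mem_sUn.mp hz
        exact hall G hG z hzG
      · push Not at hall
        obtain ⟨G, hG, hGc⟩ := hall
        right
        rcases (mem_sep.mp (hC G hG)).2 with h | h
        · exact absurd h hGc
        · intro z hz; exact mem_sUn.mpr ⟨G, hG, h z hz⟩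
  exact (mem_sep.mp ((mem_T0.mp hx).2 _ h)).2

include hF hmin hfX hinf hch in
theorem all_ext {c : M} (hc : c ∈ T0 X F f) : Ext X F f c := by
  have hT := tow_T0 hF hfX hch
  have h : Tow X f F (sep (T0 X F f) (fun c => ∀ y : M, y ∈ T0 X F f → Sub y c → y ≠ c →
      Sub (f y) c)) := by
    refine ⟨?_, ?_, ?_, ?_⟩
    · intro G hG; exact hT.1 G (mem_sep.mp hG).1
    · refine mem_sep.mpr ⟨hT.2.1, fun y hy hyF hne => ?_⟩
      exact absurd (Sub.antisymm hyF (hmin y (hT.1 y hy))) hne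
    · intro c hc
      rw [mem_sep] at hc ⊢
      refine ⟨hT.2.2.1 c hc.1, fun y hy hyc hne => ?_⟩
      rcases ext_lem hF hmin hfX hinf hch hc.1 hc.2 hy with h | h
      · by_cases hyc' : y = c
        · rw [hyc']; exact Sub.refl _
        · exact (hc.2 y hy h hyc').trans (hinf c (hT.1 c hc.1))
      · exact absurd (Sub.antisymm hyc h) hne
    · intro C hC hne hcC
      have hCT : Sub C (T0 X F f) := fun G hG => (mem_sep.mp (hC G hG)).1
      rw [mem_sep]
      refine ⟨hT.2.2.2 C hCT hne hcC, fun y hy hyb hyne => ?_⟩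
      have hsub : ∀ G : M, G ∈ C → Sub G (sUn C) := fun G hG z hz => mem_sUn.mpr ⟨G, hG, hz⟩
      by_cases hall : ∀ G : M, G ∈ C → Sub (f G) y
      · exfalso
        apply hyne
        apply Sub.antisymm hyb
        intro z hz
        obtain ⟨G, hG, hzG⟩ := mem_sUn.mp hz
        exact hall G hG z (hinf G (hT.1 G (hCT G hG)) z hzG)
      · push Not at hall
        obtain ⟨G, hG, hGy⟩ := hall
        have heG : Ext X F f G := (mem_sep.mp (hC G hG)).2
        rcases ext_lem hF hmin hfX hinf hch (hCT G hG) heG hy with h | h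
        · by_cases hyG : y = G
          · subst hyG
            rcases ext_lem hF hmin hfX hinf hch hy heG
              (hT.2.2.2 C hCT hne hcC) with h1 | h1
            · exact absurd (Sub.antisymm hyb h1) hyne
            · exact h1
          · exact (heG y hy h hyG).trans (hsub G hG)
        · exact absurd h hGy
  exact (mem_sep.mp ((mem_T0.mp hc).2 _ h)).2

include hF hmin hfX hinf hch in
/-- Bourbaki–Witt: an inflationary definable map has a fixed point. -/
theorem bourbaki_witt : ∃ G : M, G ∈ X ∧ f G = G := by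
  have hT := tow_T0 hF hfX hch
  have hchain : Chain (T0 X F f) := by
    intro x hx y hy
    rcases ext_lem hF hmin hfX hinf hch hx (all_ext hF hmin hfX hinf hch hx) hy with h | h
    · exact Or.inr h
    · exact Or.inl ((hinf x (hT.1 x hx)).trans h)
  have htop : sUn (T0 X F f) ∈ T0 X F f := hT.2.2.2 _ (Sub.refl _) ⟨F, hT.2.1⟩ hchain
  refine ⟨sUn (T0 X F f), hT.1 _ htop, ?_⟩
  apply Sub.antisymm
  · intro z hz
    exact mem_sUn.mpr ⟨_, hT.2.2.1 _ htop, hz⟩
  · exact hinf _ (hT.1 _ htop)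

end BW

/-! ### Definability of the step -/

instance fn_zz (s B : M) {a : (ℕ → M) → M} [Fn a] : Fn (fun e => zz s (a e) B) :=
  Fn.sub1 (g := fun x => zz s x B) (by unfold zz; infer_instance)

instance fn_genP (s : M) {a b c : (ℕ → M) → M} [Fn a] [Fn b] [Fn c] :
    Fn (fun e => genP s (a e) (b e) (c e)) :=
  Fn.sub3 (g := fun x y z => genP s x y z) (by unfold genP; infer_instance)

instance fn_genR (s B : M) {a b : (ℕ → M) → M} [Fn a] [Fn b] :
    Fn (fun e => genR s (a e) B (b e)) :=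
  Fn.sub2 (g := fun x y => genR s x B y) (by unfold genR; infer_instance)

open Classical in
/-- the step of the construction -/
noncomputable def step (s B G : M) : M :=
  if genR s G B (zz s G B) = G then genP s G (zz s G B) (zz s G B) else genR s G B (zz s G B)

instance fn_step (s B : M) {a : (ℕ → M) → M} [Fn a] : Fn (fun e => step s B (a e)) :=
  Fn.sub1 (g := fun x => step s B x) (by unfold step; infer_instance)

theorem chain_union {s F C : M} (hC : ∀ G : M, G ∈ C → Addi s G ∧ Sub F G)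
    (hne : ∃ G : M, G ∈ C) (hch : Chain C) : Addi s (sUn C) ∧ Sub F (sUn C) := by
  obtain ⟨G0, hG0⟩ := hne
  have hF : Filt (sUn C) := by
    refine ⟨?_, ?_, ?_, ?_, ?_⟩
    · intro A hA
      obtain ⟨G, hG, hAG⟩ := mem_sUn.mp hA
      exact (hC G hG).1.1.1 A hAG
    · intro he
      obtain ⟨G, hG, hAG⟩ := mem_sUn.mp he
      exact (hC G hG).1.1.2.1 hAG
    · exact mem_sUn.mpr ⟨G0, hG0, (hC G0 hG0).1.1.2.2.1⟩
    · intro A hA D hD hAD
      obtain ⟨G, hG, hAG⟩ := mem_sUn.mp hA
      exact mem_sUn.mpr ⟨G, hG, (hC G hG).1.1.2.2.2.1 A hAG D hD hAD⟩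
    · intro A hA D hD
      obtain ⟨G, hG, hAG⟩ := mem_sUn.mp hA
      obtain ⟨H, hH, hDH⟩ := mem_sUn.mp hD
      rcases hch G hG H hH with h | h
      · exact mem_sUn.mpr ⟨H, hH, (hC H hH).1.1.2.2.2.2 A (h A hAG) D hDH⟩
      · exact mem_sUn.mpr ⟨G, hG, (hC G hG).1.1.2.2.2.2 A hAG D (h D hDH)⟩
  refine ⟨⟨hF, ?_⟩, fun z hz => mem_sUn.mpr ⟨G0, hG0, (hC G0 hG0).2 z hz⟩⟩
  intro V hV hCV A hA
  obtain ⟨G, hG, hAG⟩ := mem_sUn.mp hA
  have hGV : Sub G V := fun z hz => hCV z (mem_sUn.mpr ⟨G, hG, hz⟩)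
  exact mem_sUn.mpr ⟨G, hG, (hC G hG).1.2 V hV hGV A hAG⟩

theorem main {s : M} (hs : IsAddition om s) {F B : M} (hF : Addi s F) (hB : Sub B pos) :
    ∃ G : M, Addi s G ∧ Sub F G ∧ (B ∈ G ∨ cmp B ∈ G) := by
  by_cases hU : ∀ H : M, Filt H → Sub F H → ∃ V : M, Ult V ∧ Sub H V
  · -- every filter above `F` extends to an ultrafilter
    set X : M := sep (pow (pow pos)) (fun G => Addi s G ∧ Sub F G) with hX
    have memX : ∀ G : M, G ∈ X ↔ Addi s G ∧ Sub F G := by
      intro G
      rw [hX, mem_sep]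
      refine ⟨fun h => h.2, fun h => ⟨?_, h⟩⟩
      rw [mem_pow]
      intro A hA
      exact mem_pow.mpr (h.1.1.1 A hA)
    have hz : ∀ G : M, G ∈ X → K s G B (zz s G B) := by
      intro G hG
      exact K_zz (exists_K hU ((memX G).mp hG).1.1 ((memX G).mp hG).2 B)
    have hzz : ∀ G : M, G ∈ X → genR s G B (zz s G B) = G → K s G (zz s G B) (zz s G B) := by
      intro G hG heq
      have hG' := (memX G).mp hG
      obtain ⟨V, hV, hGV, hact⟩ := ult_of_K hU hG'.1.1 hG'.2 (hz G hG)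
      have := K_of_genR hs hU hG'.1 hG'.2 (hz G hG) hV (by rw [heq]; exact hGV)
      rwa [hact] at this
    have hstep : ∀ G : M, G ∈ X → step s B G ∈ X ∧ Sub G (step s B G) := by
      intro G hG
      have hG' := (memX G).mp hG
      unfold step
      by_cases heq : genR s G B (zz s G B) = G
      · rw [if_pos heq]
        have hk := hzz G hG heq
        obtain ⟨_, h2, _⟩ := genP_spec hG'.1.1 hk
        exact ⟨(memX _).mpr ⟨addi_genP hs hU hG'.1 hk, hG'.2.trans h2⟩, h2⟩
      · rw [if_neg heq]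
        obtain ⟨_, h2, _⟩ := genR_spec hs hU hG'.1 hG'.2 (hz G hG)
        exact ⟨(memX _).mpr ⟨addi_genR hs hU hG'.1 hG'.2 (hz G hG), hG'.2.trans h2⟩, h2⟩
    obtain ⟨G, hG, hfix⟩ := bourbaki_witt (X := X) (F := F) (f := step s B)
      (hf := ⟨fn_step s B⟩) ((memX F).mpr ⟨hF, Sub.refl F⟩)
      (fun G hG => ((memX G).mp hG).2) (fun G hG => (hstep G hG).1) (fun G hG => (hstep G hG).2)
      (fun C hC hne hch => (memX _).mpr (chain_union (fun G hG => (memX G).mp (hC G hG)) hne hch))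
    have hG' := (memX G).mp hG
    have h1 : genR s G B (zz s G B) = G := by
      by_contra hne
      unfold step at hfix
      rw [if_neg hne] at hfix
      exact hne hfix
    have h2 : genP s G (zz s G B) (zz s G B) = G := by
      unfold step at hfix
      rwa [if_pos h1] at hfix
    refine ⟨genP s G B (zz s G B), addi_genP' hs hU hG'.1 (hz G hG) (hzz G hG h1) h2,
      hG'.2.trans (genP_spec hG'.1.1 (hz G hG)).2.1, decides hs hG'.1.1 hB (hz G hG)⟩
  · -- some filter above `F` has no ultrafilter above it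
    push Not at hU
    obtain ⟨H, hH, hFH, hno⟩ := hU
    by_cases h : ∀ g : M, g ∈ H → ∃ m : M, m ∈ g ∧ m ∈ B
    · obtain ⟨h1, h2, h3⟩ := filt_adj hH h
      exact ⟨adj H B, ⟨h1, fun V hV hs' => absurd (h2.trans hs') (hno V hV)⟩, hFH.trans h2,
        Or.inl (h3 hB)⟩
    · push Not at h
      obtain ⟨g, hg, h⟩ := h
      refine ⟨H, ⟨hH, fun V hV hs' => absurd hs' (hno V hV)⟩, hFH, Or.inr ?_⟩
      exact hH.2.2.2.1 g hg _ (fun m hm => (mem_cmp.mp hm).1)
        (fun m hm => mem_cmp.mpr ⟨hH.1 g hg m hm, h m hm⟩)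

/-- (E) holds in every model of ZF -/
theorem holdsE (N : Type u) [Membership N N] (hN : IsZF N) : HoldsE N := by
  haveI : ZFM N := ⟨hN⟩
  refine ⟨⟨om, addS, pos, isOmega_iff.mpr rfl, isAddition_addS, isPositive_iff.mpr rfl⟩, ?_⟩
  intro w s P hw hs hP F B hF hB
  rw [isOmega_iff] at hw
  subst hw
  rw [isPositive_iff] at hP
  subst hP
  obtain ⟨G, hG, hFG, h⟩ := main hs ((isAdditive_iff hs).mp hF) hB
  refine ⟨G, (isAdditive_iff hs).mpr hG, hFG, ?_⟩
  rcases h with h | h
  · exact Or.inl h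
  · exact Or.inr ⟨cmp B, fun z => mem_cmp, h⟩

end Pool.Agent.H82.ZF
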