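import Pool.Agent.H82.ZF.Base

/-!
# The statement (E) of MP_084d61_lc, read inside a structure `(M, ∈)`

All quantifiers range over the elements of `M` and the only primitive is the membership relation of
`M`, so each definition below is a first-order formula of the language of set theory read in `M`.
-/

set_option autoImplicit false

universe u

namespace Pool.Agent.H82.ZF

variable {M : Type u} [Membership M M]

/-- `o = ∅` -/
def IsEmp (o : M) : Prop := ∀ z : M, ¬ z ∈ o

/-- `y = x ∪ {x}` -/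
def IsSuc (x y : M) : Prop := ∀ z : M, z ∈ y ↔ z ∈ x ∨ z = x

/-- `w` contains `∅` and is closed under `x ↦ x ∪ {x}` -/
def IsInductive (w : M) : Prop :=
  (∃ o : M, IsEmp o ∧ o ∈ w) ∧ ∀ x : M, x ∈ w → ∃ y : M, IsSuc x y ∧ y ∈ w

/-- `w = ω`, the least inductive set: the set of natural numbers `0, 1, 2, …` -/
def IsOmega (w : M) : Prop :=
  IsInductive w ∧ ∀ v : M, IsInductive v → ∀ x : M, x ∈ w → x ∈ v

/-- `p = {x, y}` -/
def IsUpair (x y p : M) : Prop := ∀ z : M, z ∈ p ↔ z = x ∨ z = y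

/-- `p` is the ordered pair `(x, y) = {{x}, {x, y}}` -/
def IsOpair (x y p : M) : Prop :=
  ∃ a b : M, IsUpair x x a ∧ IsUpair x y b ∧ IsUpair a b p

/-- `((m, n), k) ∈ s`; for a function `s` on pairs of numbers this says `s(m, n) = k` -/
def Tri (s m n k : M) : Prop := ∃ p q : M, IsOpair m n p ∧ IsOpair p k q ∧ q ∈ s

/-- `s` is the addition function `ω × ω → ω`, where `w = ω`: it is a function from `ω × ω` to `ω`
with `m + 0 = m` and `m + (n ∪ {n}) = (m + n) ∪ {m + n}` -/
structure IsAddition (w s : M) : Prop where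
  rel : ∀ q : M, q ∈ s → ∃ m n k p : M, m ∈ w ∧ n ∈ w ∧ k ∈ w ∧ IsOpair m n p ∧ IsOpair p k q
  total : ∀ m n : M, m ∈ w → n ∈ w → ∃ k : M, Tri s m n k
  unique : ∀ m n k l : M, Tri s m n k → Tri s m n l → k = l
  zero : ∀ m o : M, m ∈ w → IsEmp o → Tri s m o m
  succ : ∀ m n k n' k' : M, Tri s m n k → IsSuc n n' → IsSuc k k' → Tri s m n' k'

/-- `N = ω \ {0}`, the set of positive integers (`w = ω`) -/
def IsPositive (w N : M) : Prop := ∀ x : M, x ∈ N ↔ x ∈ w ∧ ¬ IsEmp x

/-- `x ⊆ y` -/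
def IsSub (x y : M) : Prop := ∀ t : M, t ∈ x → t ∈ y

/-- `F` is a filter on `N`: a family of nonempty subsets of `N`, containing `N`, closed under
supersets (in `N`) and under binary intersections -/
structure IsFilter (N F : M) : Prop where
  sub : ∀ A : M, A ∈ F → IsSub A N
  nonempty : ∀ A : M, A ∈ F → ¬ IsEmp A
  top : N ∈ F
  up : ∀ A C : M, A ∈ F → IsSub A C → IsSub C N → C ∈ F
  inter : ∀ A C D : M, A ∈ F → C ∈ F → (∀ z : M, z ∈ D ↔ z ∈ A ∧ z ∈ C) → D ∈ F

/-- `V` is an ultrafilter on `N`: a filter maximal under inclusion -/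
structure IsUltrafilter (N V : M) : Prop where
  filter : IsFilter N V
  maximal : ∀ W : M, IsFilter N W → IsSub V W → W = V

/-- `D = A - n = {m ∈ N : m + n ∈ A}` -/
def IsShift (N s A n D : M) : Prop := ∀ m : M, m ∈ D ↔ m ∈ N ∧ ∃ k : M, Tri s m n k ∧ k ∈ A

/-- for `A ⊆ N`: `A ∈ F ⊕ G`, that is `{n ∈ N : A - n ∈ G} ∈ F` -/
def InPseudoSum (N s F G A : M) : Prop :=
  ∃ C : M, (∀ n : M, n ∈ C ↔ n ∈ N ∧ ∃ D : M, IsShift N s A n D ∧ D ∈ G) ∧ C ∈ F

/-- `F` is an additive filter on `N`: a filter with `F ⊆ F ⊕ V` for every ultrafilter `V ⊇ F` -/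
structure IsAdditive (N s F : M) : Prop where
  filter : IsFilter N F
  additive : ∀ V : M, IsUltrafilter N V → IsSub F V → ∀ A : M, A ∈ F → InPseudoSum N s F V A

/-- The statement (E), read in `(M, ∈)`: `ω`, its addition `s` and the set `N` of positive integers
exist, and for these, every additive filter `F` on `N` and every `B ⊆ N` there is an additive filter
`G ⊇ F` on `N` with `B ∈ G` or `N \ B ∈ G`. -/
def HoldsE (M : Type u) [Membership M M] : Prop :=
  (∃ w s N : M, IsOmega w ∧ IsAddition w s ∧ IsPositive w N) ∧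
  ∀ w s N : M, IsOmega w → IsAddition w s → IsPositive w N →
    ∀ F B : M, IsAdditive N s F → IsSub B N →
      ∃ G : M, IsAdditive N s G ∧ IsSub F G ∧
        (B ∈ G ∨ ∃ C : M, (∀ z : M, z ∈ C ↔ z ∈ N ∧ ¬ z ∈ B) ∧ C ∈ G)

end Pool.Agent.H82.ZF
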