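import Pool.Agent.H82.ZF.Ops
import Pool.Agent.H82.ZF.Statement

/-!
# Natural numbers inside a model of ZF
-/

set_option autoImplicit false
set_option linter.unusedSectionVars false
set_option linter.style.haveILetI false

universe u

namespace Pool.Agent.H82.ZF

variable {M : Type u} [Membership M M] [hM : ZFM M]

theorem isEmp_iff {o : M} : IsEmp o ↔ o = emp := by
  constructor
  · intro h; exact eq_emp h
  · rintro rfl; intro z; exact not_mem_emp

theorem isSuc_iff {x y : M} : IsSuc x y ↔ y = suc x := by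
  constructor
  · intro h; exact ext' fun z => (h z).trans mem_suc.symm
  · rintro rfl; intro z; exact mem_suc

theorem isUpair_iff {x y p : M} : IsUpair x y p ↔ p = upair x y := by
  constructor
  · intro h; exact ext' fun z => (h z).trans mem_upair.symm
  · rintro rfl; intro z; exact mem_upair

theorem isOpair_iff {x y p : M} : IsOpair x y p ↔ p = opair x y := by
  unfold IsOpair opair
  simp only [isUpair_iff]
  constructor
  · rintro ⟨a, b, rfl, rfl, rfl⟩; rfl
  · rintro rfl; exact ⟨_, _, rfl, rfl, rfl⟩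

theorem isSub_iff {x y : M} : IsSub x y ↔ Sub x y := Iff.rfl

theorem tri_iff {s m n k : M} : Tri s m n k ↔ opair (opair m n) k ∈ s := by
  unfold Tri
  simp only [isOpair_iff]
  constructor
  · rintro ⟨p, q, rfl, rfl, h⟩; exact h
  · intro h; exact ⟨_, _, rfl, rfl, h⟩

theorem isInductive_iff {w : M} : IsInductive w ↔ emp ∈ w ∧ ∀ x : M, x ∈ w → suc x ∈ w := by
  unfold IsInductive
  simp only [isEmp_iff, isSuc_iff]
  constructor
  · rintro ⟨⟨o, rfl, h⟩, h2⟩
    refine ⟨h, fun x hx => ?_⟩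
    obtain ⟨y, rfl, hy⟩ := h2 x hx
    exact hy
  · rintro ⟨h1, h2⟩
    exact ⟨⟨emp, rfl, h1⟩, fun x hx => ⟨suc x, rfl, h2 x hx⟩⟩

theorem dfn_isInductive : Dfn (fun e : ℕ → M => IsInductive (e 0)) := by
  have h : Dfn (fun e : ℕ → M => emp ∈ e 0 ∧ ∀ x : M, x ∈ e 0 → suc x ∈ e 0) := inferInstance
  exact h.congr (fun _ => isInductive_iff)

instance {a : (ℕ → M) → M} [Fn a] : Dfn (fun e => IsInductive (a e)) :=
  Dfn.sub1 (P := fun x => IsInductive x) dfn_isInductive

/-- an inductive set -/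
noncomputable def w0 : M := (hM.isZF.infinity).choose

theorem isInductive_w0 : IsInductive (w0 : M) := (hM.isZF.infinity).choose_spec

/-- the set `ω` of the model -/
noncomputable def om : M := sep w0 (fun x => ∀ v : M, IsInductive v → x ∈ v)

theorem mem_om {x : M} : x ∈ (om : M) ↔ ∀ v : M, IsInductive v → x ∈ v := by
  unfold om
  rw [mem_sep]
  exact ⟨fun h => h.2, fun h => ⟨h _ isInductive_w0, h⟩⟩

theorem isInductive_om : IsInductive (om : M) := by
  rw [isInductive_iff]
  constructor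
  · rw [mem_om]; intro v hv; exact (isInductive_iff.mp hv).1
  · intro x hx
    rw [mem_om] at hx ⊢
    intro v hv
    exact (isInductive_iff.mp hv).2 x (hx v hv)

theorem emp_mem_om : (emp : M) ∈ (om : M) := (isInductive_iff.mp isInductive_om).1

theorem suc_mem_om {x : M} (h : x ∈ (om : M)) : suc x ∈ (om : M) :=
  (isInductive_iff.mp isInductive_om).2 x h

theorem isOmega_iff {w : M} : IsOmega w ↔ w = om := by
  constructor
  · rintro ⟨h1, h2⟩
    refine ext' fun x => ⟨fun hx => mem_om.mpr fun v hv => h2 v hv x hx, fun hx => mem_om.mp hx _ h1⟩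
  · rintro rfl
    exact ⟨isInductive_om, fun v hv x hx => mem_om.mp hx v hv⟩

/-- induction for definable predicates -/
theorem om_ind {P : M → Prop} [Dfn (fun e : ℕ → M => P (e 0))] (h0 : P emp)
    (hs : ∀ n : M, n ∈ (om : M) → P n → P (suc n)) {n : M} (hn : n ∈ (om : M)) : P n := by
  have h : IsInductive (sep (om : M) P) := by
    rw [isInductive_iff]
    refine ⟨mem_sep.mpr ⟨emp_mem_om, h0⟩, fun x hx => ?_⟩
    rw [mem_sep] at hx ⊢
    exact ⟨suc_mem_om hx.1, hs x hx.1 hx.2⟩
  exact (mem_sep.mp (mem_om.mp hn _ h)).2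

theorem om_trans {n : M} (hn : n ∈ (om : M)) : ∀ t : M, t ∈ n → Sub t n := by
  refine om_ind (P := fun n => ∀ t : M, t ∈ n → Sub t n) (fun t ht => absurd ht not_mem_emp) ?_ hn
  intro n _ ih t ht x hx
  rcases mem_suc.mp ht with h | rfl
  · exact mem_suc.mpr (Or.inl (ih t h x hx))
  · exact mem_suc.mpr (Or.inl hx)

theorem mem_om_of_mem {n : M} (hn : n ∈ (om : M)) : Sub n om := by
  refine om_ind (P := fun n => Sub n om) (fun t ht => absurd ht not_mem_emp) ?_ hn
  intro n hn ih t ht
  rcases mem_suc.mp ht with h | rfl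
  · exact ih t h
  · exact hn

theorem not_mem_self {n : M} (hn : n ∈ (om : M)) : ¬ n ∈ n := by
  refine om_ind (P := fun n => ¬ n ∈ n) not_mem_emp ?_ hn
  intro n hn ih h
  rcases mem_suc.mp h with h1 | h1
  · exact ih (om_trans hn _ h1 n (mem_suc.mpr (Or.inr rfl)))
  · have : n ∈ suc n := mem_suc.mpr (Or.inr rfl)
    rw [h1] at this
    exact ih this

theorem suc_inj {m n : M} (hm : m ∈ (om : M)) (hn : n ∈ (om : M)) (h : suc m = suc n) : m = n := by
  by_contra hne
  have h1 : m ∈ suc n := h ▸ mem_suc.mpr (Or.inr rfl)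
  have h2 : n ∈ suc m := h ▸ mem_suc.mpr (Or.inr rfl)
  rcases mem_suc.mp h1 with h1 | h1
  · rcases mem_suc.mp h2 with h2 | h2
    · exact not_mem_self hn (om_trans hm n h2 |> fun hs => (om_trans hn m h1) n h2)
    · exact hne h2.symm
  · exact hne h1

theorem suc_ne_emp {n : M} : suc n ≠ emp := by
  intro h
  have : n ∈ (emp : M) := h ▸ mem_suc.mpr (Or.inr rfl)
  exact not_mem_emp this

theorem eq_emp_or_suc {n : M} (hn : n ∈ (om : M)) : n = emp ∨ ∃ m : M, m ∈ (om : M) ∧ n = suc m := by
  refine om_ind (P := fun n => n = emp ∨ ∃ m : M, m ∈ (om : M) ∧ n = suc m) (Or.inl rfl) ?_ hn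
  intro n hn _
  exact Or.inr ⟨n, hn, rfl⟩

theorem sub_lem {l : M} (hl : l ∈ (om : M)) :
    ∀ k : M, k ∈ (om : M) → Sub k l → k = l ∨ k ∈ l := by
  refine om_ind (P := fun l => ∀ k : M, k ∈ (om : M) → Sub k l → k = l ∨ k ∈ l) ?_ ?_ hl
  · intro k _ hk
    exact Or.inl (eq_emp fun z hz => not_mem_emp (hk z hz))
  · intro l hl ih k hk hsub
    by_cases hlk : l ∈ k
    · left
      apply Sub.antisymm hsub
      intro z hz
      rcases mem_suc.mp hz with h | rfl
      · exact om_trans hk l hlk z h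
      · exact hlk
    · right
      have : Sub k l := by
        intro z hz
        rcases mem_suc.mp (hsub z hz) with h | rfl
        · exact h
        · exact absurd hz hlk
      rcases ih k hk this with rfl | h
      · exact mem_suc.mpr (Or.inr rfl)
      · exact mem_suc.mpr (Or.inl h)

theorem om_total {k : M} (hk : k ∈ (om : M)) : ∀ l : M, l ∈ (om : M) → Sub k l ∨ Sub l k := by
  refine om_ind (P := fun k => ∀ l : M, l ∈ (om : M) → Sub k l ∨ Sub l k) ?_ ?_ hk
  · intro l _; left; intro z hz; exact absurd hz not_mem_emp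
  · intro k hk ih l hl
    rcases ih l hl with h | h
    · rcases sub_lem hl k hk h with rfl | h1
      · right; intro z hz; exact mem_suc.mpr (Or.inl hz)
      · left
        intro z hz
        rcases mem_suc.mp hz with h2 | rfl
        · exact h z h2
        · exact h1
    · right; intro z hz; exact mem_suc.mpr (Or.inl (h z hz))

/-! ### Addition -/

/-- the value of the relation `s` at `(m, n)` -/
noncomputable def add (s m n : M) : M := sUn (sep om (fun k => opair (opair m n) k ∈ s))

instance {a b c : (ℕ → M) → M} [Fn a] [Fn b] [Fn c] : Fn (fun e => add (a e) (b e) (c e)) :=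
  Fn.sub3 (g := fun x y z => add x y z) (by unfold add; infer_instance)

section add

variable {s : M} (hs : IsAddition om s)

include hs

theorem tri_mem {m n k : M} (h : Tri s m n k) : m ∈ (om : M) ∧ n ∈ (om : M) ∧ k ∈ (om : M) := by
  obtain ⟨m', n', k', p, hm, hn, hk, hp, hq⟩ := hs.rel _ (tri_iff.mp h)
  rw [isOpair_iff] at hp hq
  subst hp
  obtain ⟨h1, h2⟩ := opair_inj hq
  obtain ⟨h3, h4⟩ := opair_inj h1
  subst h2; subst h3; subst h4
  exact ⟨hm, hn, hk⟩

theorem tri_add {m n k : M} (h : Tri s m n k) : add s m n = k := by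
  unfold add
  have : sep om (fun k => opair (opair m n) k ∈ s) = upair k k := by
    apply ext'
    intro z
    rw [mem_sep, mem_upair, or_self]
    constructor
    · rintro ⟨_, hz⟩
      exact hs.unique m n z k (tri_iff.mpr hz) h
    · rintro rfl
      exact ⟨(tri_mem hs h).2.2, tri_iff.mp h⟩
  rw [this]
  apply ext'
  intro z
  rw [mem_sUn]
  constructor
  · rintro ⟨y, hy, hz⟩
    rw [mem_upair, or_self] at hy
    subst hy; exact hz
  · intro hz; exact ⟨k, mem_upair.mpr (Or.inl rfl), hz⟩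

theorem tri_iff_add {m n k : M} (hm : m ∈ (om : M)) (hn : n ∈ (om : M)) :
    Tri s m n k ↔ add s m n = k := by
  obtain ⟨l, hl⟩ := hs.total m n hm hn
  constructor
  · exact tri_add hs
  · intro h
    rw [tri_add hs hl] at h
    subst h; exact hl

theorem add_mem {m n : M} (hm : m ∈ (om : M)) (hn : n ∈ (om : M)) : add s m n ∈ (om : M) := by
  obtain ⟨l, hl⟩ := hs.total m n hm hn
  rw [tri_add hs hl]
  exact (tri_mem hs hl).2.2

theorem add_emp {m : M} (hm : m ∈ (om : M)) : add s m emp = m :=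
  tri_add hs (hs.zero m emp hm (isEmp_iff.mpr rfl))

theorem add_suc {m n : M} (hm : m ∈ (om : M)) (hn : n ∈ (om : M)) :
    add s m (suc n) = suc (add s m n) := by
  obtain ⟨l, hl⟩ := hs.total m n hm hn
  rw [tri_add hs hl]
  exact tri_add hs (hs.succ m n l _ _ hl (isSuc_iff.mpr rfl) (isSuc_iff.mpr rfl))

theorem add_assoc' {a b c : M} (ha : a ∈ (om : M)) (hb : b ∈ (om : M)) (hc : c ∈ (om : M)) :
    add s (add s a b) c = add s a (add s b c) := by
  refine om_ind (P := fun c => add s (add s a b) c = add s a (add s b c)) ?_ ?_ hc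
  · rw [add_emp hs (add_mem hs ha hb), add_emp hs hb]
  · intro n hn ih
    rw [add_suc hs (add_mem hs ha hb) hn, add_suc hs hb hn, add_suc hs ha (add_mem hs hb hn), ih]

theorem emp_add {a : M} (ha : a ∈ (om : M)) : add s emp a = a := by
  refine om_ind (P := fun a => add s emp a = a) (add_emp hs emp_mem_om) ?_ ha
  intro n hn ih
  rw [add_suc hs emp_mem_om hn, ih]

theorem suc_add {a b : M} (ha : a ∈ (om : M)) (hb : b ∈ (om : M)) :
    add s (suc a) b = suc (add s a b) := by
  refine om_ind (P := fun b => add s (suc a) b = suc (add s a b)) ?_ ?_ hb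
  · rw [add_emp hs (suc_mem_om ha), add_emp hs ha]
  · intro n hn ih
    rw [add_suc hs (suc_mem_om ha) hn, add_suc hs ha hn, ih]

theorem add_comm' {a b : M} (ha : a ∈ (om : M)) (hb : b ∈ (om : M)) :
    add s a b = add s b a := by
  refine om_ind (P := fun b => add s a b = add s b a) ?_ ?_ hb
  · rw [add_emp hs ha, emp_add hs ha]
  · intro n hn ih
    rw [add_suc hs ha hn, suc_add hs hn ha, ih]

theorem add_ne_emp {a b : M} (ha : a ∈ (om : M)) (hb : b ∈ (om : M)) (h : b ≠ emp) :
    add s a b ≠ emp := by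
  rcases eq_emp_or_suc hb with h1 | ⟨m, hm, rfl⟩
  · exact absurd h1 h
  · rw [add_suc hs ha hm]; exact suc_ne_emp

end add

/-! ### Existence of addition -/

/-- cartesian product -/
noncomputable def prod (x y : M) : M :=
  sep (pow (pow (cup x y))) (fun p => ∃ a : M, a ∈ x ∧ ∃ b : M, b ∈ y ∧ p = opair a b)

theorem mem_prod {x y p : M} : p ∈ prod x y ↔ ∃ a : M, a ∈ x ∧ ∃ b : M, b ∈ y ∧ p = opair a b := by
  unfold prod
  rw [mem_sep]
  constructor
  · exact fun h => h.2
  · rintro ⟨a, ha, b, hb, rfl⟩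
    refine ⟨?_, a, ha, b, hb, rfl⟩
    rw [mem_pow]
    intro t ht
    rw [mem_pow]
    intro z hz
    rw [mem_cup]
    rcases mem_upair.mp ht with rfl | rfl
    · rcases mem_upair.mp hz with rfl | rfl <;> exact Or.inl ha
    · rcases mem_upair.mp hz with rfl | rfl
      · exact Or.inl ha
      · exact Or.inr hb

/-- closure of a set of triples under the rules of addition -/
def AddClosed (v : M) : Prop :=
  (∀ m : M, m ∈ (om : M) → opair (opair m emp) m ∈ v) ∧
  ∀ m n k : M, opair (opair m n) k ∈ v → opair (opair m (suc n)) (suc k) ∈ v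

instance {a : (ℕ → M) → M} [Fn a] : Dfn (fun e => AddClosed (a e)) :=
  Dfn.sub1 (P := fun x => AddClosed x) (by unfold AddClosed; infer_instance)

/-- the addition function of the model -/
noncomputable def addS : M :=
  sep (prod (prod om om) om) (fun q => ∀ v : M, AddClosed v → q ∈ v)

theorem addClosed_prod : AddClosed (sep (prod (prod om om) om : M) (fun _ => True)) := by
  haveI : Dfn (fun _ : ℕ → M => True) := Dfn.congr (P := fun e : ℕ → M => e 0 = e 0)
    inferInstance (fun e => by simp)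
  constructor
  · intro m hm
    rw [mem_sep]
    exact ⟨mem_prod.mpr ⟨_, mem_prod.mpr ⟨m, hm, emp, emp_mem_om, rfl⟩, m, hm, rfl⟩, trivial⟩
  · intro m n k h
    rw [mem_sep] at h ⊢
    obtain ⟨p, hp, k', hk, he⟩ := mem_prod.mp h.1
    obtain ⟨m', hm, n', hn, rfl⟩ := mem_prod.mp hp
    obtain ⟨h1, rfl⟩ := opair_inj he
    obtain ⟨rfl, rfl⟩ := opair_inj h1
    exact ⟨mem_prod.mpr ⟨_, mem_prod.mpr ⟨m, hm, suc n, suc_mem_om hn, rfl⟩, suc k,
      suc_mem_om hk, rfl⟩, trivial⟩

theorem mem_addS {m n k : M} : opair (opair m n) k ∈ (addS : M) ↔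
    (m ∈ (om : M) ∧ n ∈ (om : M) ∧ k ∈ (om : M)) ∧ ∀ v : M, AddClosed v →
      opair (opair m n) k ∈ v := by
  unfold addS
  rw [mem_sep, mem_prod]
  constructor
  · rintro ⟨⟨p, hp, k', hk, he⟩, h⟩
    obtain ⟨m', hm, n', hn, rfl⟩ := mem_prod.mp hp
    obtain ⟨h1, rfl⟩ := opair_inj he
    obtain ⟨rfl, rfl⟩ := opair_inj h1
    exact ⟨⟨hm, hn, hk⟩, h⟩
  · rintro ⟨⟨hm, hn, hk⟩, h⟩
    exact ⟨⟨_, mem_prod.mpr ⟨m, hm, n, hn, rfl⟩, k, hk, rfl⟩, h⟩

theorem addClosed_addS : AddClosed (addS : M) := by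
  constructor
  · intro m hm
    rw [mem_addS]
    exact ⟨⟨hm, emp_mem_om, hm⟩, fun v hv => hv.1 m hm⟩
  · intro m n k h
    rw [mem_addS] at h ⊢
    exact ⟨⟨h.1.1, suc_mem_om h.1.2.1, suc_mem_om h.1.2.2⟩, fun v hv => hv.2 m n k (h.2 v hv)⟩

theorem addS_zero {m k : M} (h : opair (opair m emp) k ∈ (addS : M)) : k = m := by
  have hc : AddClosed (sep (addS : M) (fun q => ∀ a b c : M, q = opair (opair a b) c →
      b = emp → c = a)) := by
    constructor
    · intro m hm
      rw [mem_sep]
      refine ⟨addClosed_addS.1 m hm, fun a b c he _ => ?_⟩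
      obtain ⟨h1, h2⟩ := opair_inj he
      rw [← h2, (opair_inj h1).1]
    · intro m n k hk
      rw [mem_sep] at hk ⊢
      refine ⟨addClosed_addS.2 m n k hk.1, fun a b c he hb => ?_⟩
      obtain ⟨h1, _⟩ := opair_inj he
      have h3 := (opair_inj h1).2
      rw [hb] at h3
      exact absurd h3 suc_ne_emp
  exact (mem_sep.mp ((mem_addS.mp h).2 _ hc)).2 m emp k rfl rfl

theorem addS_suc {m n k : M} (h : opair (opair m (suc n)) k ∈ (addS : M)) (hn : n ∈ (om : M)) :
    ∃ l : M, opair (opair m n) l ∈ (addS : M) ∧ k = suc l := by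
  have hc : AddClosed (sep (addS : M) (fun q => ∀ a b c : M, q = opair (opair a (suc b)) c →
      b ∈ (om : M) → ∃ l : M, opair (opair a b) l ∈ (addS : M) ∧ c = suc l)) := by
    constructor
    · intro m hm
      rw [mem_sep]
      refine ⟨addClosed_addS.1 m hm, fun a b c he _ => ?_⟩
      obtain ⟨h1, h2⟩ := opair_inj he
      exact absurd (opair_inj h1).2.symm suc_ne_emp
    · intro m n k hk
      rw [mem_sep] at hk ⊢
      refine ⟨addClosed_addS.2 m n k hk.1, fun a b c he hb => ?_⟩
      obtain ⟨h1, h2⟩ := opair_inj he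
      obtain ⟨h3, h4⟩ := opair_inj h1
      have hn' := (mem_addS.mp hk.1).1.2.1
      have h5 := suc_inj hn' hb h4
      subst h3; subst h5
      exact ⟨k, hk.1, h2.symm⟩
  exact (mem_sep.mp ((mem_addS.mp h).2 _ hc)).2 m n k rfl hn

theorem isAddition_addS : IsAddition (om : M) addS := by
  refine ⟨?_, ?_, ?_, ?_, ?_⟩
  · intro q hq
    have h1 : q ∈ (prod (prod om om) om : M) := by
      unfold addS at hq
      exact (mem_sep.mp hq).1
    obtain ⟨p, hp, k, hk, rfl⟩ := mem_prod.mp h1
    obtain ⟨m, hm, n, hn, rfl⟩ := mem_prod.mp hp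
    exact ⟨m, n, k, opair m n, hm, hn, hk, isOpair_iff.mpr rfl, isOpair_iff.mpr rfl⟩
  · intro m n hm hn
    simp only [tri_iff]
    refine om_ind (P := fun n => ∃ k : M, opair (opair m n) k ∈ (addS : M)) ?_ ?_ hn
    · exact ⟨m, addClosed_addS.1 m hm⟩
    · rintro n _ ⟨k, hk⟩
      exact ⟨suc k, addClosed_addS.2 m n k hk⟩
  · intro m n k l hk hl
    rw [tri_iff] at hk hl
    have hn := (mem_addS.mp hk).1.2.1
    have key : ∀ k l : M, opair (opair m n) k ∈ (addS : M) → opair (opair m n) l ∈ (addS : M) →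
        k = l := by
      refine om_ind (P := fun n => ∀ k l : M, opair (opair m n) k ∈ (addS : M) →
        opair (opair m n) l ∈ (addS : M) → k = l) ?_ ?_ hn
      · intro k l hk hl
        rw [addS_zero hk, addS_zero hl]
      · intro n hn ih k l hk hl
        obtain ⟨k', hk', rfl⟩ := addS_suc hk hn
        obtain ⟨l', hl', rfl⟩ := addS_suc hl hn
        rw [ih k' l' hk' hl']
    exact key k l hk hl
  · intro m o hm ho
    rw [tri_iff, isEmp_iff.mp ho]
    exact addClosed_addS.1 m hm
  · intro m n k n' k' h hn hk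
    rw [tri_iff] at h ⊢
    rw [isSuc_iff.mp hn, isSuc_iff.mp hk]
    exact addClosed_addS.2 m n k h

end Pool.Agent.H82.ZF
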