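import Pool.Agent.H82.ZF.Base

/-!
# Basic set operations inside a model of ZF
-/

set_option autoImplicit false
set_option linter.unusedSectionVars false
set_option linter.style.haveILetI false

universe u

namespace Pool.Agent.H82.ZF

/-- `M` is a model of ZF, as a class. -/
class ZFM (M : Type u) [Membership M M] : Prop where
  isZF : IsZF M

variable {M : Type u} [Membership M M] [hM : ZFM M]

instance : Nonempty M := ⟨(hM.isZF.infinity).choose⟩

theorem ext' {x y : M} (h : ∀ z : M, z ∈ x ↔ z ∈ y) : x = y := hM.isZF.ext x y h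

/-- inclusion inside the model -/
def Sub (x y : M) : Prop := ∀ t : M, t ∈ x → t ∈ y

instance {a b : (ℕ → M) → M} [Fn a] [Fn b] : Dfn (fun e => Sub (a e) (b e)) :=
  Dfn.sub2 (P := fun x y => Sub x y) (by unfold Sub; infer_instance)

theorem Sub.refl (x : M) : Sub x x := fun _ h => h

theorem Sub.trans {x y z : M} (h : Sub x y) (k : Sub y z) : Sub x z := fun t ht => k t (h t ht)

theorem Sub.antisymm {x y : M} (h : Sub x y) (k : Sub y x) : x = y :=
  ext' fun z => ⟨h z, k z⟩

open Classical in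
/-- separation -/
noncomputable def sep (a : M) (P : M → Prop) : M :=
  if h : ∃ y : M, ∀ x, x ∈ y ↔ x ∈ a ∧ P x then h.choose else a

theorem mem_sep_of {a : M} {P : M → Prop} (h : ∃ (φ : Fml) (e : ℕ → M), ∀ x, P x ↔ φ.Sat (cons x e))
    (x : M) : x ∈ sep a P ↔ x ∈ a ∧ P x := by
  obtain ⟨φ, e, hφ⟩ := h
  have h1 : ∃ y : M, ∀ x, x ∈ y ↔ x ∈ a ∧ P x := by
    obtain ⟨y, hy⟩ := hM.isZF.separation φ e a
    exact ⟨y, fun x => by rw [hy, hφ]⟩
  unfold sep
  rw [dif_pos h1]
  exact h1.choose_spec x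

theorem mem_sep {a : M} {P : M → Prop} [h : Dfn (fun e : ℕ → M => P (e 0))] {x : M} :
    x ∈ sep a P ↔ x ∈ a ∧ P x := by
  apply mem_sep_of
  exact Dfn.slice (P := fun x _ => P x) h (fun _ => a)

instance Fn.sep {a : (ℕ → M) → M} {P : M → (ℕ → M) → Prop} [ha : Fn a]
    [h : Dfn (fun e => P (e 0) (fun n => e (n + 1)))] : Fn (fun e => sep (a e) (fun x => P x e)) := by
  refine ⟨?_⟩
  haveI h1 : Dfn (fun e : ℕ → M => P (e 0) (fun n => e (n + 1 + 1))) := h.ren (lift (fun n => n + 1))
  haveI h2 : Fn (fun e : ℕ → M => a (fun n => e (n + 1 + 1))) := ha.ren (fun n => n + 1 + 1)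
  have h3 : Dfn (fun e : ℕ → M => ∀ x, x ∈ e 0 ↔ x ∈ a (fun n => e (n + 1)) ∧
      P x (fun n => e (n + 1))) := by
    refine Dfn.all (P := fun x e => (x ∈ e 0 ↔ x ∈ a (fun n => e (n + 1)) ∧
      P x (fun n => e (n + 1))))
  refine h3.congr fun e => ?_
  have hs := fun x => mem_sep_of (a := a (fun n => e (n + 1))) (P := fun x => P x (fun n => e (n + 1)))
    (Dfn.slice h (fun n => e (n + 1))) x
  constructor
  · intro he x
    rw [he]; exact hs x
  · intro hx
    exact ext' fun z => (hx z).trans (hs z).symm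

open Classical in
/-- unordered pair -/
noncomputable def upair (x y : M) : M :=
  if h : ∃ p : M, ∀ z : M, z ∈ p ↔ z = x ∨ z = y then h.choose else x

theorem mem_upair {x y z : M} : z ∈ upair x y ↔ z = x ∨ z = y := by
  have h := hM.isZF.pairing x y
  unfold upair
  rw [dif_pos h]
  exact h.choose_spec z

instance {a b : (ℕ → M) → M} [Fn a] [Fn b] : Fn (fun e => upair (a e) (b e)) := by
  refine Fn.sub2 (g := fun x y => upair x y) ⟨?_⟩
  have h3 : Dfn (fun e : ℕ → M => ∀ x, x ∈ e 0 ↔ x = e 1 ∨ x = e 2) := inferInstance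
  refine h3.congr fun e => ?_
  constructor
  · intro he x; rw [he]; exact mem_upair
  · intro hx; exact ext' fun z => (hx z).trans mem_upair.symm

open Classical in
/-- union of a set of sets -/
noncomputable def sUn (x : M) : M :=
  if h : ∃ u : M, ∀ z : M, z ∈ u ↔ ∃ y : M, y ∈ x ∧ z ∈ y then h.choose else x

theorem mem_sUn {x z : M} : z ∈ sUn x ↔ ∃ y : M, y ∈ x ∧ z ∈ y := by
  have h := hM.isZF.union x
  unfold sUn
  rw [dif_pos h]
  exact h.choose_spec z

instance {a : (ℕ → M) → M} [Fn a] : Fn (fun e => sUn (a e)) := by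
  refine Fn.sub1 (g := fun x => sUn x) ⟨?_⟩
  have h3 : Dfn (fun e : ℕ → M => ∀ x, x ∈ e 0 ↔ ∃ y, y ∈ e 1 ∧ x ∈ y) := inferInstance
  refine h3.congr fun e => ?_
  constructor
  · intro he x; rw [he]; exact mem_sUn
  · intro hx; exact ext' fun z => (hx z).trans mem_sUn.symm

open Classical in
/-- power set -/
noncomputable def pow (x : M) : M :=
  if h : ∃ p : M, ∀ z : M, z ∈ p ↔ ∀ t : M, t ∈ z → t ∈ x then h.choose else x

theorem mem_pow {x z : M} : z ∈ pow x ↔ Sub z x := by
  have h := hM.isZF.power x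
  unfold pow
  rw [dif_pos h]
  exact h.choose_spec z

instance {a : (ℕ → M) → M} [Fn a] : Fn (fun e => pow (a e)) := by
  refine Fn.sub1 (g := fun x => pow x) ⟨?_⟩
  have h3 : Dfn (fun e : ℕ → M => ∀ x, x ∈ e 0 ↔ Sub x (e 1)) := inferInstance
  refine h3.congr fun e => ?_
  constructor
  · intro he x; rw [he]; exact mem_pow
  · intro hx; exact ext' fun z => (hx z).trans mem_pow.symm

/-- union of two sets -/
noncomputable def cup (x y : M) : M := sUn (upair x y)

theorem mem_cup {x y z : M} : z ∈ cup x y ↔ z ∈ x ∨ z ∈ y := by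
  unfold cup
  rw [mem_sUn]
  constructor
  · rintro ⟨w, hw, hz⟩
    rcases mem_upair.mp hw with rfl | rfl
    · exact Or.inl hz
    · exact Or.inr hz
  · rintro (h | h)
    · exact ⟨x, mem_upair.mpr (Or.inl rfl), h⟩
    · exact ⟨y, mem_upair.mpr (Or.inr rfl), h⟩

instance {a b : (ℕ → M) → M} [Fn a] [Fn b] : Fn (fun e => cup (a e) (b e)) := by
  unfold cup; infer_instance

/-- successor `x ∪ {x}` -/
noncomputable def suc (x : M) : M := cup x (upair x x)

theorem mem_suc {x z : M} : z ∈ suc x ↔ z ∈ x ∨ z = x := by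
  unfold suc
  rw [mem_cup, mem_upair, or_self]

instance {a : (ℕ → M) → M} [Fn a] : Fn (fun e => suc (a e)) := by
  unfold suc; infer_instance

/-- the empty set -/
noncomputable def emp : M := sep (Classical.arbitrary M) (fun x => ¬ x = x)

theorem not_mem_emp {x : M} : ¬ x ∈ (emp : M) := by
  unfold emp
  rw [mem_sep]
  tauto

theorem eq_emp {x : M} (h : ∀ z : M, ¬ z ∈ x) : x = emp :=
  ext' fun z => ⟨fun hz => absurd hz (h z), fun hz => absurd hz not_mem_emp⟩

/-- ordered pair (Kuratowski) -/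
noncomputable def opair (x y : M) : M := upair (upair x x) (upair x y)

instance {a b : (ℕ → M) → M} [Fn a] [Fn b] : Fn (fun e => opair (a e) (b e)) := by
  unfold opair; infer_instance

theorem upair_eq_left {x y z : M} (h : upair x y = upair z z) : x = z ∧ y = z := by
  constructor
  · have : x ∈ upair z z := h ▸ mem_upair.mpr (Or.inl rfl)
    exact (or_self_iff.mp (mem_upair.mp this))
  · have : y ∈ upair z z := h ▸ mem_upair.mpr (Or.inr rfl)
    exact (or_self_iff.mp (mem_upair.mp this))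

theorem opair_inj {x y x' y' : M} (h : opair x y = opair x' y') : x = x' ∧ y = y' := by
  have h1 : upair x x ∈ opair x' y' := h ▸ mem_upair.mpr (Or.inl rfl)
  have hx : x = x' := by
    rcases mem_upair.mp h1 with h2 | h2
    · exact (upair_eq_left h2).1
    · exact ((upair_eq_left h2.symm).1).symm
  subst hx
  refine ⟨rfl, ?_⟩
  have h3 : upair x y ∈ opair x y' := h ▸ mem_upair.mpr (Or.inr rfl)
  have h4 : upair x y' ∈ opair x y := h ▸ mem_upair.mpr (Or.inr rfl)
  rcases mem_upair.mp h3 with h5 | h5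
  · have hy := (upair_eq_left h5).2
    subst hy
    rcases mem_upair.mp h4 with h6 | h6
    · exact ((upair_eq_left h6).2).symm
    · exact ((upair_eq_left h6).2).symm
  · have : y ∈ upair x y' := h5 ▸ mem_upair.mpr (Or.inr rfl)
    rcases mem_upair.mp this with h6 | h6
    · subst h6
      have : y' ∈ upair y y := h5.symm ▸ mem_upair.mpr (Or.inr rfl)
      exact (or_self_iff.mp (mem_upair.mp this)).symm
    · exact h6

end Pool.Agent.H82.ZF
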